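import Pool.Agent.PP5A.CaseA

/-!
# PP5, archimedean count: assembly
-/

namespace Pool.Agent.PP5A

open Finset Real Pool.Agent.PP5L

theorem cyc_cast (k : Fin 10 → ℤ) :
    (fun j => ((cyc k j : ℤ) : ℝ)) = cyc (fun j => (k j : ℝ)) := by
  funext j
  fin_cases j <;> simp [cyc]

theorem uni_cast (k : Fin 10 → ℤ) :
    (fun j => ((uni k j : ℤ) : ℝ)) = uni (fun j => (k j : ℝ)) := by
  funext j
  fin_cases j <;> simp [uni]

/-- the basic hypotheses -/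
def H0 (M ε c : ℝ) (k : Fin 10 → ℤ) : Prop :=
  (∀ j, |(k j : ℝ)| ≤ M) ∧ |FF (fun j => (k j : ℝ))| ≤ c * M ∧
    |DD (fun j => (k j : ℝ))| ≤ c * (ε * M ^ 4)

theorem H0_cyc {M ε c : ℝ} {k : Fin 10 → ℤ} (h : H0 M ε c k) : H0 M ε c (cyc k) := by
  obtain ⟨h1, h2, h3⟩ := h
  refine ⟨?_, ?_, ?_⟩
  · intro j
    fin_cases j
    · exact h1 1
    · exact h1 2
    · exact h1 3
    · exact h1 0
    · exact h1 4
    · have := h1 5
      simpa [cyc] using this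
    · exact h1 7
    · exact h1 9
    · exact h1 6
    · exact h1 8
  · rw [cyc_cast, FF_cyc, abs_neg]; exact h2
  · rw [cyc_cast, DD_cyc]; exact h3

theorem H0_mono {M ε c : ℝ} (hM : 1 ≤ M) (hc : 1 ≤ c) (hε : 0 ≤ ε) {k : Fin 10 → ℤ}
    (h : H0 M ε c k) : H0 (4 * M) ε (64 * c) k := by
  obtain ⟨h1, h2, h3⟩ := h
  refine ⟨?_, ?_, ?_⟩
  · intro j
    have := h1 j
    linarith
  · refine h2.trans ?_
    nlinarith
  · refine h3.trans ?_
    have e1 : M ^ 4 ≤ (4 * M) ^ 4 := by gcongr; linarith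
    have e2 : c ≤ 64 * c := by linarith
    gcongr

theorem H0_uni {M ε c : ℝ} (hM : 1 ≤ M) (hc : 1 ≤ c) (hε : 0 ≤ ε) {k : Fin 10 → ℤ}
    (h : H0 M ε c k) : H0 (4 * M) ε (64 * c) (uni k) := by
  obtain ⟨_, h2', h3'⟩ := H0_mono hM hc hε h
  obtain ⟨h1, h2, h3⟩ := h
  refine ⟨?_, ?_, ?_⟩
  · have b := fun j => abs_le.mp (h1 j)
    have b0 := b 0
    have b1 := b 1
    have b2 := b 2
    have b3 := b 3
    have b4 := b 4
    have b5 := b 5
    have b6 := b 6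
    have b7 := b 7
    have b8 := b 8
    have b9 := b 9
    intro j
    rw [abs_le]
    fin_cases j <;> simp [uni] <;> constructor <;> linarith [b0.1, b0.2, b1.1, b1.2, b2.1, b2.2,
      b3.1, b3.2, b4.1, b4.2, b5.1, b5.2, b6.1, b6.2, b7.1, b7.2, b8.1, b8.2, b9.1, b9.2]
  · rw [uni_cast, FF_uni]; exact h2'
  · rw [uni_cast, DD_uni]; exact h3'

/-- the maps for case A -/
def GA : Fin 6 → (Fin 10 → ℤ) → (Fin 10 → ℤ) :=
  ![fun k => k, fun k => cyc k, fun k => cyc (cyc k), fun k => cyc (cyc (cyc k)),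
    fun k => uni k, fun k => uni (cyc k)]

/-- the maps for case B -/
def GB : Fin 4 → (Fin 10 → ℤ) → (Fin 10 → ℤ) :=
  ![fun k => k, fun k => cyc k, fun k => cyc (cyc k), fun k => cyc (cyc (cyc k))]

theorem GA_inj (i : Fin 6) : Function.Injective (GA i) := by
  fin_cases i
  · exact fun a b h => h
  · exact fun a b h => cyc_inj h
  · exact fun a b h => cyc_inj (cyc_inj h)
  · exact fun a b h => cyc_inj (cyc_inj (cyc_inj h))
  · exact fun a b h => uni_inj h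
  · exact fun a b h => cyc_inj (uni_inj h)

theorem GB_inj (i : Fin 4) : Function.Injective (GB i) := by
  fin_cases i
  · exact fun a b h => h
  · exact fun a b h => cyc_inj h
  · exact fun a b h => cyc_inj (cyc_inj h)
  · exact fun a b h => cyc_inj (cyc_inj (cyc_inj h))

/-- the case distinction -/
theorem cases_AB {M ε c : ℝ} (hM : 1 ≤ M) (hc : 1 ≤ c) (hε : 0 ≤ ε) {k : Fin 10 → ℤ}
    (h : H0 M ε c k) (hex : ∃ j, M / c ≤ |(k j : ℝ)|) :
    (∃ i, HA (4 * M) ε (64 * c) (GA i k)) ∨ ∃ i, HB M ε c (GB i k) := by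
  have hc0 : 0 < c := by linarith
  have hm0 : 0 < M / c := by positivity
  have e4 : 4 * M / (64 * c) = (M / c) / 16 := by field_simp; ring
  have mkA : ∀ k' : Fin 10 → ℤ, H0 (4 * M) ε (64 * c) k' → (M / c) / 16 ≤ |(k' 2 : ℝ)| →
      HA (4 * M) ε (64 * c) k' := by
    intro k' h' h2
    exact ⟨h'.1, by rw [e4]; exact h2, h'.2.1, h'.2.2⟩
  have c1 := H0_cyc h
  have c2 := H0_cyc c1
  have c3 := H0_cyc c2
  by_cases a2 : (M / c) / 16 ≤ |(k 2 : ℝ)|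
  · exact Or.inl ⟨0, mkA k (H0_mono hM hc hε h) a2⟩
  by_cases a3 : (M / c) / 16 ≤ |(k 3 : ℝ)|
  · exact Or.inl ⟨1, mkA _ (H0_mono hM hc hε c1) a3⟩
  by_cases a0 : (M / c) / 16 ≤ |(k 0 : ℝ)|
  · exact Or.inl ⟨2, mkA _ (H0_mono hM hc hε c2) a0⟩
  by_cases a1 : (M / c) / 16 ≤ |(k 1 : ℝ)|
  · exact Or.inl ⟨3, mkA _ (H0_mono hM hc hε c3) a1⟩
  rw [not_le] at a0 a1 a2 a3
  have mkB : ∀ k' : Fin 10 → ℤ, H0 M ε c k' → M / c ≤ |(k' 6 : ℝ)| →
      |(k' 0 : ℝ)| < (M / c) / 16 → |(k' 1 : ℝ)| < (M / c) / 16 → HB M ε c k' := by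
    intro k' h' h6 h0 h1
    exact ⟨h'.1, h6, by linarith, by linarith, h'.2.1, h'.2.2⟩
  by_cases b6 : M / c ≤ |(k 6 : ℝ)|
  · exact Or.inr ⟨0, mkB k h b6 a0 a1⟩
  by_cases b7 : M / c ≤ |(k 7 : ℝ)|
  · exact Or.inr ⟨1, mkB _ c1 b7 a1 a2⟩
  by_cases b9 : M / c ≤ |(k 9 : ℝ)|
  · exact Or.inr ⟨2, mkB _ c2 b9 a2 a3⟩
  by_cases b8 : M / c ≤ |(k 8 : ℝ)|
  · exact Or.inr ⟨3, mkB _ c3 b8 a3 a0⟩
  left
  have h45 : M / c ≤ |(k 4 : ℝ)| ∨ M / c ≤ |(k 5 : ℝ)| := by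
    obtain ⟨j, hj⟩ := hex
    fin_cases j
    · exact absurd hj (not_le.mpr (by simp only [Fin.zero_eta]; linarith))
    · exact absurd hj (not_le.mpr (by simp only [Fin.mk_one]; linarith))
    · exact absurd hj (not_le.mpr (by change |(k 2 : ℝ)| < M / c; linarith))
    · exact absurd hj (not_le.mpr (by change |(k 3 : ℝ)| < M / c; linarith))
    · exact Or.inl hj
    · exact Or.inr hj
    · exact absurd hj b6
    · exact absurd hj b7
    · exact absurd hj b8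
    · exact absurd hj b9
  have hsum : 2 * (M / c) ≤ |(k 4 : ℝ) + k 5| + |(k 4 : ℝ) - k 5| := by
    rcases h45 with h | h
    · have e : 2 * (k 4 : ℝ) = ((k 4 : ℝ) + k 5) + ((k 4 : ℝ) - k 5) := by ring
      have := abs_add_le ((k 4 : ℝ) + k 5) ((k 4 : ℝ) - k 5)
      rw [← e, abs_mul] at this
      have h2 : |(2:ℝ)| = 2 := by norm_num
      rw [h2] at this
      linarith
    · have e : 2 * (k 5 : ℝ) = ((k 4 : ℝ) + k 5) - ((k 4 : ℝ) - k 5) := by ring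
      have := abs_sub ((k 4 : ℝ) + k 5) ((k 4 : ℝ) - k 5)
      rw [← e, abs_mul] at this
      have h2 : |(2:ℝ)| = 2 := by norm_num
      rw [h2] at this
      linarith
  have tri : ∀ a b d : ℝ, |b| - |a| - |d| ≤ |a - b + d| := by
    intro a b d
    have e : b = a + d - (a - b + d) := by ring
    have h1 : |b| ≤ |a + d| + |a - b + d| := by
      calc |b| = |a + d - (a - b + d)| := by rw [← e]
        _ ≤ _ := abs_sub _ _
    have h2 := abs_add_le a d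
    linarith
  by_cases hp : M / c ≤ |(k 4 : ℝ) + k 5|
  · refine ⟨4, mkA (uni k) (H0_uni hM hc hε h) ?_⟩
    have e : ((uni k 2 : ℤ) : ℝ) = (k 2 : ℝ) - ((k 4 : ℝ) + k 5) + k 0 := by simp [uni]
    rw [e]
    have := tri (k 2 : ℝ) ((k 4 : ℝ) + k 5) (k 0 : ℝ)
    linarith
  · have hm : M / c ≤ |(k 4 : ℝ) - k 5| := by linarith [not_le.mp hp]
    refine ⟨5, mkA (uni (cyc k)) (H0_uni hM hc hε c1) ?_⟩
    have e : ((uni (cyc k) 2 : ℤ) : ℝ) = (k 3 : ℝ) - ((k 4 : ℝ) - k 5) + k 1 := by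
      simp [uni, cyc]; ring
    rw [e]
    have := tri (k 3 : ℝ) ((k 4 : ℝ) - k 5) (k 1 : ℝ)
    linarith

/-- the count, at the scale of the box -/
theorem count_box {p : ℝ} (hp : 0 < p) (hp2 : p < 1 / 2) {c : ℝ} (hc : 1 ≤ c) :
    ∃ C' : ℝ, 0 ≤ C' ∧ ∀ (M ε : ℝ), 1 ≤ M → 1 / M ≤ ε → ε ≤ 1 →
      ∀ (R : Finset (Fin 10 → ℤ)), (∀ k ∈ R, H0 M ε c k ∧ ∃ j, M / c ≤ |(k j : ℝ)|) →
      (R.card : ℝ) ≤ C' * (ε ^ (2 * p) * M ^ 9) := by
  classical
  obtain ⟨CA, hCA, hA⟩ := caseA hp hp2 (c := 64 * c) (by linarith)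
  obtain ⟨CB, hCB, hB⟩ := caseB hp hp2 hc
  refine ⟨6 * (CA * 4 ^ 9) + 4 * CB, by positivity, ?_⟩
  intro M ε hM hε hε1 R hR
  have hM0 : 0 < M := by linarith
  have hε0 : 0 < ε := lt_of_lt_of_le (by positivity) hε
  have hε4 : 1 / (4 * M) ≤ ε := by
    refine le_trans ?_ hε
    apply one_div_le_one_div_of_le hM0
    linarith
  set SA : Fin 6 → Finset (Fin 10 → ℤ) :=
    fun i => R.filter (fun k => HA (4 * M) ε (64 * c) (GA i k)) with hSA
  set SB : Fin 4 → Finset (Fin 10 → ℤ) := fun i => R.filter (fun k => HB M ε c (GB i k)) with hSB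
  have hsub : R ⊆ (Finset.univ.biUnion SA) ∪ (Finset.univ.biUnion SB) := by
    intro k hk
    rw [Finset.mem_union, Finset.mem_biUnion, Finset.mem_biUnion]
    rcases cases_AB hM hc hε0.le (hR k hk).1 (hR k hk).2 with ⟨i, hi⟩ | ⟨i, hi⟩
    · exact Or.inl ⟨i, Finset.mem_univ _, Finset.mem_filter.mpr ⟨hk, hi⟩⟩
    · exact Or.inr ⟨i, Finset.mem_univ _, Finset.mem_filter.mpr ⟨hk, hi⟩⟩
  have hcA : ∀ i, ((SA i).card : ℝ) ≤ CA * (ε ^ (2 * p) * (4 * M) ^ 9) := by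
    intro i
    have h1 := hA (4 * M) ε (by linarith) hε4 hε1 ((SA i).image (GA i)) (by
      intro k hk
      obtain ⟨k', hk', rfl⟩ := Finset.mem_image.mp hk
      exact (Finset.mem_filter.mp hk').2)
    rwa [Finset.card_image_of_injective _ (GA_inj i)] at h1
  have hcB : ∀ i, ((SB i).card : ℝ) ≤ CB * (ε ^ (2 * p) * M ^ 9) := by
    intro i
    have h1 := hB M ε hM hε hε1 ((SB i).image (GB i)) (by
      intro k hk
      obtain ⟨k', hk', rfl⟩ := Finset.mem_image.mp hk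
      exact (Finset.mem_filter.mp hk').2)
    rwa [Finset.card_image_of_injective _ (GB_inj i)] at h1
  have h2 : (R.card : ℝ) ≤ ∑ i, ((SA i).card : ℝ) + ∑ i, ((SB i).card : ℝ) := by
    have h3 := Finset.card_le_card hsub
    have h4 := Finset.card_union_le (Finset.univ.biUnion SA) (Finset.univ.biUnion SB)
    have h5 : (Finset.univ.biUnion SA).card ≤ ∑ i, (SA i).card := Finset.card_biUnion_le
    have h6 : (Finset.univ.biUnion SB).card ≤ ∑ i, (SB i).card := Finset.card_biUnion_le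
    have h7 : R.card ≤ ∑ i, (SA i).card + ∑ i, (SB i).card := by omega
    exact_mod_cast h7
  have h3 : ∑ i, ((SA i).card : ℝ) ≤ 6 * (CA * (ε ^ (2 * p) * (4 * M) ^ 9)) := by
    calc _ ≤ ∑ _i : Fin 6, CA * (ε ^ (2 * p) * (4 * M) ^ 9) := Finset.sum_le_sum (fun i _ => hcA i)
      _ = _ := by rw [Finset.sum_const, Finset.card_univ, Fintype.card_fin, nsmul_eq_mul]; norm_num
  have h4 : ∑ i, ((SB i).card : ℝ) ≤ 4 * (CB * (ε ^ (2 * p) * M ^ 9)) := by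
    calc _ ≤ ∑ _i : Fin 4, CB * (ε ^ (2 * p) * M ^ 9) := Finset.sum_le_sum (fun i _ => hcB i)
      _ = _ := by rw [Finset.sum_const, Finset.card_univ, Fintype.card_fin, nsmul_eq_mul]; norm_num
  calc (R.card : ℝ) ≤ 6 * (CA * (ε ^ (2 * p) * (4 * M) ^ 9)) + 4 * (CB * (ε ^ (2 * p) * M ^ 9)) := by
        linarith
    _ = _ := by ring

/-- **(AC)** -/
theorem arch_count {p : ℝ} (hp : 0 < p) (hp2 : p < 1 / 2) {C : ℝ} (hC : 1 ≤ C) :
    ∃ C' : ℝ, 0 ≤ C' ∧ ∀ (K ε : ℝ), 1 ≤ K → 1 / K ≤ ε → ε ≤ 1 →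
      ∀ (R : Finset (Fin 10 → ℤ)), (∀ k ∈ R, (∀ j, |(k j : ℝ)| ≤ C * K) ∧
        (∃ j, K / C ≤ |(k j : ℝ)|) ∧ |((FF k : ℤ) : ℝ)| ≤ C * K ∧
        |(((SS k).det : ℤ) : ℝ)| ≤ C * (ε * K ^ 4)) →
      (R.card : ℝ) ≤ C' * (ε ^ (2 * p) * K ^ 9) := by
  have hC0 : 0 < C := by linarith
  obtain ⟨C1, hC1, h⟩ := count_box hp hp2 (c := C ^ 2) (one_le_pow₀ hC)
  refine ⟨C1 * C ^ 9, by positivity, ?_⟩
  intro K ε hK hε hε1 R hR
  have hK0 : 0 < K := by linarith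
  have hε0 : 0 < ε := lt_of_lt_of_le (by positivity) hε
  have hKM : K ≤ C * K := by nlinarith
  have h1 := h (C * K) ε (by linarith)
    (le_trans (one_div_le_one_div_of_le hK0 hKM) hε) hε1 R (by
      intro k hk
      obtain ⟨a1, ⟨j, a2⟩, a3, a4⟩ := hR k hk
      have hC2 : 1 ≤ C ^ 2 := one_le_pow₀ hC
      refine ⟨⟨a1, ?_, ?_⟩, j, ?_⟩
      · rw [← FF_cast]
        refine a3.trans ?_
        nlinarith [mul_pos hC0 hK0]
      · rw [← DD_cast, ← det_SS]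
        refine a4.trans ?_
        have e1 : K ^ 4 ≤ (C * K) ^ 4 := by gcongr
        have e2 : C ≤ C ^ 2 := by nlinarith
        gcongr
      · have : C * K / C ^ 2 = K / C := by field_simp
        rw [this]; exact a2)
  refine h1.trans (le_of_eq ?_)
  rw [mul_pow]
  ring

end Pool.Agent.PP5A
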