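import Pool.Agent.PP5A.Two
import Pool.Agent.PP5.LDefs

/-!
# PP5, archimedean count: the determinant as a polynomial, symmetries
-/

namespace Pool.Agent.PP5A

open Finset Real Pool.Agent.PP5L

section Ring

variable {R : Type*} [CommRing R]

/-- the determinant of the lower right `3 × 3` block -/
def dl (x : Fin 10 → R) : R :=
  8 * x 1 * x 2 * x 3 - 2 * x 2 * (x 4 - x 5) ^ 2 + 2 * x 3 * x 7 ^ 2 + 2 * x 1 * x 9 ^ 2
    - 2 * (x 4 - x 5) * x 7 * x 9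

/-- the determinant as a polynomial -/
def DD (x : Fin 10 → R) : R :=
  2 * x 0 * dl x - ((4 * x 1 * x 3 - (x 4 - x 5) ^ 2) * (x 4 + x 5) ^ 2
    - (4 * x 2 * x 3 + x 9 ^ 2) * x 6 ^ 2 - (4 * x 1 * x 2 + x 7 ^ 2) * x 8 ^ 2
    - 2 * ((x 4 - x 5) * x 9 - 2 * x 3 * x 7) * (x 4 + x 5) * x 6
    + 2 * (2 * x 1 * x 9 - x 7 * (x 4 - x 5)) * (x 4 + x 5) * x 8
    + 2 * (2 * x 2 * (x 4 - x 5) + x 7 * x 9) * x 6 * x 8)

theorem det_SS (x : Fin 10 → R) : (SS x).det = DD x := by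
  simp [SS, DD, dl, Matrix.det_succ_row_zero, Fin.sum_univ_succ, Matrix.submatrix, Fin.succAbove]
  ring

/-- the cyclic symmetry -/
def cyc (x : Fin 10 → R) : Fin 10 → R := ![x 1, x 2, x 3, x 0, x 4, -x 5, x 7, x 9, x 6, x 8]

/-- a unipotent symmetry -/
def uni (x : Fin 10 → R) : Fin 10 → R :=
  ![x 0, x 1, x 2 - (x 4 + x 5) + x 0, x 3, x 4 - x 0, x 5 - x 0, x 6, x 7 - x 6, x 8, x 9 - x 8]

theorem FF_cyc (x : Fin 10 → R) : FF (cyc x) = -FF x := by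
  simp [FF, cyc]; ring

theorem DD_cyc (x : Fin 10 → R) : DD (cyc x) = DD x := by
  simp [DD, dl, cyc]; ring

theorem FF_uni (x : Fin 10 → R) : FF (uni x) = FF x := by
  simp [FF, uni]; ring

theorem DD_uni (x : Fin 10 → R) : DD (uni x) = DD x := by
  simp [DD, dl, uni]; ring

theorem cyc_inj : Function.Injective (cyc (R := R)) := by
  intro x y h
  have h0 := congrFun h 0
  have h1 := congrFun h 1
  have h2 := congrFun h 2
  have h3 := congrFun h 3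
  have h4 := congrFun h 4
  have h5 := congrFun h 5
  have h6 := congrFun h 6
  have h7 := congrFun h 7
  have h8 := congrFun h 8
  have h9 := congrFun h 9
  simp [cyc] at h0 h1 h2 h3 h4 h5 h6 h7 h8 h9
  funext i
  fin_cases i <;> simp [*]

theorem uni_inj : Function.Injective (uni (R := R)) := by
  intro x y h
  have h0 := congrFun h 0
  have h1 := congrFun h 1
  have h2 := congrFun h 2
  have h3 := congrFun h 3
  have h4 := congrFun h 4
  have h5 := congrFun h 5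
  have h6 := congrFun h 6
  have h7 := congrFun h 7
  have h8 := congrFun h 8
  have h9 := congrFun h 9
  simp [uni] at h0 h1 h2 h3 h4 h5 h6 h7 h8 h9
  have e4 : x 4 = y 4 := by rw [h0] at h4; simpa using h4
  have e5 : x 5 = y 5 := by rw [h0] at h5; simpa using h5
  have e2 : x 2 = y 2 := by rw [h0, e4, e5] at h2; simpa using h2
  have e7 : x 7 = y 7 := by rw [h6] at h7; simpa using h7
  have e9 : x 9 = y 9 := by rw [h8] at h9; simpa using h9
  funext i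
  fin_cases i <;> simp [*]

end Ring

/-- casts -/
theorem FF_cast (k : Fin 10 → ℤ) : ((FF k : ℤ) : ℝ) = FF (fun j => (k j : ℝ)) := by
  simp [FF]

theorem DD_cast (k : Fin 10 → ℤ) : ((DD k : ℤ) : ℝ) = DD (fun j => (k j : ℝ)) := by
  simp [DD, dl]

/-- counting by fibres -/
theorem card_le_sum_fib {α β : Type*} [DecidableEq β] (S : Finset α) (f : α → β) (g : β → ℝ)
    (h : ∀ b ∈ S.image f, ((S.filter (fun a => f a = b)).card : ℝ) ≤ g b) :
    (S.card : ℝ) ≤ ∑ b ∈ S.image f, g b := by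
  have hcard : (S.card : ℝ) = ∑ t ∈ S.image f, ((S.filter (fun x => f x = t)).card : ℝ) := by
    rw [Finset.card_eq_sum_card_fiberwise (f := f) (t := S.image f)
      (fun x hx => Finset.mem_image_of_mem _ hx)]
    push_cast; rfl
  rw [hcard]
  exact Finset.sum_le_sum h

theorem card_le_mul_fib {α β : Type*} [DecidableEq β] (S : Finset α) (f : α → β) (G : ℝ)
    (h : ∀ b ∈ S.image f, ((S.filter (fun a => f a = b)).card : ℝ) ≤ G) :
    (S.card : ℝ) ≤ ((S.image f).card : ℝ) * G := by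
  have := card_le_sum_fib S f (fun _ => G) h
  rwa [Finset.sum_const, nsmul_eq_mul] at this

/-- boxes -/
theorem card_box {n : ℕ} {M : ℝ} (hM : 1 ≤ M) (S : Finset (Fin n → ℤ))
    (hS : ∀ w ∈ S, ∀ i, |(w i : ℝ)| ≤ M) : (S.card : ℝ) ≤ (3 * M) ^ n := by
  classical
  set I : Finset ℤ := Finset.Icc (-⌊M⌋) ⌊M⌋ with hI
  have hsub : S ⊆ Fintype.piFinset (fun _ : Fin n => I) := by
    intro w hw
    rw [Fintype.mem_piFinset]
    intro i
    have h1 := abs_le.mp (hS w hw i)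
    rw [hI, Finset.mem_Icc]
    constructor
    · have : -w i ≤ ⌊M⌋ := by
        rw [Int.le_floor]; push_cast; linarith
      linarith
    · rw [Int.le_floor]; exact h1.2
  have h2 : (I.card : ℝ) ≤ 3 * M := by
    apply card_le_M hM
    intro t ht
    rw [hI, Finset.mem_Icc] at ht
    have h3 : (⌊M⌋ : ℝ) ≤ M := Int.floor_le M
    have h4 : (t : ℝ) ≤ ⌊M⌋ := by exact_mod_cast ht.2
    have h5 : (-(⌊M⌋ : ℝ)) ≤ t := by exact_mod_cast ht.1
    rw [abs_le]; constructor <;> linarith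
  calc (S.card : ℝ) ≤ ((Fintype.piFinset (fun _ : Fin n => I)).card : ℝ) := by
        exact_mod_cast Finset.card_le_card hsub
    _ = (I.card : ℝ) ^ n := by
        rw [Fintype.card_piFinset]; simp
    _ ≤ (3 * M) ^ n := by gcongr

/-- pairs -/
theorem card_pairs {M : ℝ} (hM : 1 ≤ M) (S : Finset (ℤ × ℤ))
    (hS : ∀ w ∈ S, |(w.1 : ℝ)| ≤ M ∧ |(w.2 : ℝ)| ≤ M) : (S.card : ℝ) ≤ 9 * M ^ 2 := by
  classical
  have hsub : S ⊆ (S.image Prod.fst) ×ˢ (S.image Prod.snd) := by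
    intro w hw
    rw [Finset.mem_product]
    exact ⟨Finset.mem_image_of_mem _ hw, Finset.mem_image_of_mem _ hw⟩
  have h1 := card_le_M hM (S.image Prod.fst) (by
    intro t ht
    obtain ⟨x, hx, rfl⟩ := Finset.mem_image.mp ht
    exact (hS x hx).1)
  have h2 := card_le_M hM (S.image Prod.snd) (by
    intro t ht
    obtain ⟨x, hx, rfl⟩ := Finset.mem_image.mp ht
    exact (hS x hx).2)
  calc (S.card : ℝ) ≤ (((S.image Prod.fst) ×ˢ (S.image Prod.snd)).card : ℝ) := by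
        exact_mod_cast Finset.card_le_card hsub
    _ = ((S.image Prod.fst).card : ℝ) * ((S.image Prod.snd).card : ℝ) := by
        rw [Finset.card_product]; push_cast; rfl
    _ ≤ (3 * M) * (3 * M) := by gcongr
    _ = 9 * M ^ 2 := by ring

/-- the elimination used when the coordinate `2` is large -/
theorem elimA (x : Fin 10 → ℝ) (h2 : x 2 ≠ 0) :
    (4 * x 2 * x 3 + x 9 ^ 2) * (x 6) ^ 2
      + 2 * (-(2 * x 2 * (x 4 - x 5) + x 7 * x 9)) * x 6 * x 8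
      + (4 * x 1 * x 2 + x 7 ^ 2) * (x 8) ^ 2
      + (2 * x 9 * dl x / x 2 + 2 * ((x 4 - x 5) * x 9 - 2 * x 3 * x 7) * (x 4 + x 5)) * x 6
      + (-(2 * x 7 * dl x / x 2) - 2 * (2 * x 1 * x 9 - x 7 * (x 4 - x 5)) * (x 4 + x 5)) * x 8
      + (2 * (x 1 * x 3 + x 4 * x 5) * dl x / x 2
        - (4 * x 1 * x 3 - (x 4 - x 5) ^ 2) * (x 4 + x 5) ^ 2)
      = DD x - 2 * dl x * FF x / x 2 := by
  rw [DD, FF]
  field_simp
  ring

/-- the part of the determinant of degree one in the coordinate `9` -/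
def l9 (x : Fin 10 → ℝ) : ℝ :=
  2 * x 0 * (- 2 * (x 4 - x 5) * x 7) + 2 * (x 4 - x 5) * (x 4 + x 5) * x 6
    - 4 * x 1 * (x 4 + x 5) * x 8 - 2 * x 7 * x 6 * x 8

/-- the elimination used when the coordinate `6` is large: the coordinate `9` is replaced by `y` -/
theorem elimB (x : Fin 10 → ℝ) (y : ℝ) (h6 : x 6 ≠ 0)
    (hy : y = (x 0 * x 2 - x 1 * x 3 - x 4 * x 5 + x 7 * x 8) / x 6) :
    DD x + (y - x 9) * ((4 * x 0 * x 1 + x 6 ^ 2) * (y + x 9) + l9 x) =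
    ((4 * x 0 * x 1 + x 6 ^ 2) / x 6 ^ 2 * x 0 ^ 2) * (x 2) ^ 2
      + 2 * ((4 * x 0 * x 1 + x 6 ^ 2) / x 6 ^ 2 * (2 * x 6 ^ 2 - x 0 * x 1)) * x 2 * x 3
      + ((4 * x 0 * x 1 + x 6 ^ 2) / x 6 ^ 2 * x 1 ^ 2) * (x 3) ^ 2
      + (2 * (4 * x 0 * x 1 + x 6 ^ 2) / x 6 ^ 2 * x 0 * (x 7 * x 8 - x 4 * x 5) + l9 x * x 0 / x 6
          + (- 4 * x 0 * (x 4 - x 5) ^ 2 + 4 * x 1 * x 8 ^ 2 - 4 * (x 4 - x 5) * x 6 * x 8)) * x 2
      + (- (2 * (4 * x 0 * x 1 + x 6 ^ 2) / x 6 ^ 2 * x 1 * (x 7 * x 8 - x 4 * x 5))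
          - l9 x * x 1 / x 6
          + (4 * x 0 * x 7 ^ 2 - 4 * x 1 * (x 4 + x 5) ^ 2 - 4 * x 7 * (x 4 + x 5) * x 6)) * x 3
      + ((4 * x 0 * x 1 + x 6 ^ 2) / x 6 ^ 2 * (x 7 * x 8 - x 4 * x 5) ^ 2
          + l9 x * (x 7 * x 8 - x 4 * x 5) / x 6
          + ((x 4 - x 5) ^ 2 * (x 4 + x 5) ^ 2 + x 7 ^ 2 * x 8 ^ 2
            + 2 * x 7 * (x 4 - x 5) * (x 4 + x 5) * x 8)) := by
  subst hy
  rw [DD, dl, l9]
  field_simp
  ring

end Pool.Agent.PP5A
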