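import Pool.Agent.PP5A.CaseB

/-!
# PP5, archimedean count: the case where the coordinate `2` is large
-/

namespace Pool.Agent.PP5A

open Finset Real Pool.Agent.PP5L

/-- the hypotheses for case A -/
def HA (M ε c : ℝ) (k : Fin 10 → ℤ) : Prop :=
  (∀ j, |(k j : ℝ)| ≤ M) ∧ M / c ≤ |(k 2 : ℝ)| ∧ |FF (fun j => (k j : ℝ))| ≤ c * M ∧
    |DD (fun j => (k j : ℝ))| ≤ c * (ε * M ^ 4)

theorem dl_bound (x : Fin 10 → ℝ) {M : ℝ} (hM : 0 ≤ M) (hx : ∀ j, |x j| ≤ M) :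
    |dl x| ≤ 24 * M ^ 3 := by
  have h := fun j => hx j
  have a45 : |x 4 - x 5| ≤ 2 * M := by
    have := abs_sub (x 4) (x 5); linarith [h 4, h 5]
  have e1 : |8 * x 1 * x 2 * x 3| ≤ 8 * M ^ 3 := by
    have : |8 * x 1 * x 2 * x 3| = 8 * (|x 1| * |x 2| * |x 3|) := by
      simp only [abs_mul]; norm_num; ring
    rw [this]
    calc 8 * (|x 1| * |x 2| * |x 3|) ≤ 8 * (M * M * M) := by
          gcongr <;> exact h _
      _ = _ := by ring
  have e2 : |2 * x 2 * (x 4 - x 5) ^ 2| ≤ 8 * M ^ 3 := by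
    have : |2 * x 2 * (x 4 - x 5) ^ 2| = 2 * (|x 2| * |x 4 - x 5| ^ 2) := by
      simp only [abs_mul, abs_pow]; norm_num; ring
    rw [this]
    calc 2 * (|x 2| * |x 4 - x 5| ^ 2) ≤ 2 * (M * (2 * M) ^ 2) := by
          gcongr; exact h _
      _ = _ := by ring
  have e3 : |2 * x 3 * x 7 ^ 2| ≤ 2 * M ^ 3 := by
    have : |2 * x 3 * x 7 ^ 2| = 2 * (|x 3| * |x 7| ^ 2) := by
      simp only [abs_mul, abs_pow]; norm_num; ring
    rw [this]
    calc 2 * (|x 3| * |x 7| ^ 2) ≤ 2 * (M * M ^ 2) := by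
          gcongr <;> exact h _
      _ = _ := by ring
  have e4 : |2 * x 1 * x 9 ^ 2| ≤ 2 * M ^ 3 := by
    have : |2 * x 1 * x 9 ^ 2| = 2 * (|x 1| * |x 9| ^ 2) := by
      simp only [abs_mul, abs_pow]; norm_num; ring
    rw [this]
    calc 2 * (|x 1| * |x 9| ^ 2) ≤ 2 * (M * M ^ 2) := by
          gcongr <;> exact h _
      _ = _ := by ring
  have e5 : |2 * (x 4 - x 5) * x 7 * x 9| ≤ 4 * M ^ 3 := by
    have : |2 * (x 4 - x 5) * x 7 * x 9| = 2 * (|x 4 - x 5| * |x 7| * |x 9|) := by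
      simp only [abs_mul]; norm_num; ring
    rw [this]
    calc 2 * (|x 4 - x 5| * |x 7| * |x 9|) ≤ 2 * ((2 * M) * M * M) := by
          gcongr <;> exact h _
      _ = _ := by ring
  rw [dl]
  have f1 := abs_sub (8 * x 1 * x 2 * x 3 - 2 * x 2 * (x 4 - x 5) ^ 2 + 2 * x 3 * x 7 ^ 2
    + 2 * x 1 * x 9 ^ 2) (2 * (x 4 - x 5) * x 7 * x 9)
  have f2 := abs_add_le (8 * x 1 * x 2 * x 3 - 2 * x 2 * (x 4 - x 5) ^ 2 + 2 * x 3 * x 7 ^ 2)
    (2 * x 1 * x 9 ^ 2)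
  have f3 := abs_add_le (8 * x 1 * x 2 * x 3 - 2 * x 2 * (x 4 - x 5) ^ 2) (2 * x 3 * x 7 ^ 2)
  have f4 := abs_sub (8 * x 1 * x 2 * x 3) (2 * x 2 * (x 4 - x 5) ^ 2)
  linarith

/-- the coordinate `0` -/
theorem fibA0 {M ε c : ℝ} (hM : 1 ≤ M) (hc : 1 ≤ c) (R : Finset (Fin 10 → ℤ))
    (hR : ∀ k ∈ R, HA M ε c k) (k0 : Fin 10 → ℤ)
    (h : ∀ k ∈ R, ∀ j, j ≠ 0 → k j = k0 j) : (R.card : ℝ) ≤ 3 * c ^ 2 := by
  classical
  have hcard : R.card = (R.image (fun k => k 0)).card := by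
    rw [Finset.card_image_of_injOn]
    intro k hk k' hk' hkk
    funext j
    by_cases hj : j = 0
    · subst hj; exact hkk
    · rw [h k hk j hj, h k' hk' j hj]
  rw [hcard]
  have := card_le_of_diff (A := R.image (fun k => k 0)) (L := 2 * c ^ 2) (by positivity) (by
    intro s hs s' hs'
    obtain ⟨k, hk, rfl⟩ := Finset.mem_image.mp hs
    obtain ⟨k', hk', rfl⟩ := Finset.mem_image.mp hs'
    obtain ⟨_, h6, hF, _⟩ := hR k hk
    obtain ⟨_, _, hF', _⟩ := hR k' hk'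
    rw [FF] at hF hF'
    simp only [h k' hk' 1 (by decide), h k' hk' 2 (by decide),
      h k' hk' 3 (by decide), h k' hk' 4 (by decide), h k' hk' 5 (by decide),
      h k' hk' 6 (by decide), h k' hk' 7 (by decide), h k' hk' 8 (by decide),
      h k' hk' 9 (by decide)] at hF'
    simp only [h k hk 1 (by decide), h k hk 2 (by decide),
      h k hk 3 (by decide), h k hk 4 (by decide), h k hk 5 (by decide),
      h k hk 6 (by decide), h k hk 7 (by decide), h k hk 8 (by decide),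
      h k hk 9 (by decide)] at hF h6
    have h9 : |(k0 2 : ℝ)| * |(k' 0 : ℝ) - k 0| ≤ 2 * (c * M) := by
      rw [← abs_mul]
      have e : (k0 2 : ℝ) * ((k' 0 : ℝ) - k 0) =
        ((k' 0 : ℝ) * k0 2 - k0 1 * k0 3 - k0 4 * k0 5 - k0 6 * k0 9 + k0 7 * k0 8) -
        ((k 0 : ℝ) * k0 2 - k0 1 * k0 3 - k0 4 * k0 5 - k0 6 * k0 9 + k0 7 * k0 8) := by ring
      rw [e]
      refine (abs_sub _ _).trans ?_
      linarith
    have hc0 : 0 < c := by linarith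
    have h10 : M / c * |(k' 0 : ℝ) - k 0| ≤ 2 * (c * M) :=
      (mul_le_mul_of_nonneg_right h6 (abs_nonneg _)).trans h9
    have h11 : M * |(k' 0 : ℝ) - k 0| ≤ M * (2 * c ^ 2) := by
      have : M / c * |(k' 0 : ℝ) - k 0| = M * |(k' 0 : ℝ) - k 0| / c := by ring
      rw [this, div_le_iff₀ hc0] at h10
      linarith
    have h12 := le_of_mul_le_mul_left h11 (by linarith)
    exact (le_abs_self _).trans h12)
  nlinarith

/-- the part of the determinant of the `3 × 3` block which does not contain the coordinate `1` -/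
def rr (x : Fin 10 → ℝ) : ℝ :=
  x 3 * x 7 ^ 2 - x 2 * (x 4 - x 5) ^ 2 - (x 4 - x 5) * x 7 * x 9

/-- `R` to the pairs -/
theorem pairsA_le {M ε c : ℝ} (hM : 1 ≤ M) (hc : 1 ≤ c)
    (R : Finset (Fin 10 → ℤ)) (k0 : Fin 10 → ℤ) (hR : ∀ k ∈ R, HA M ε c k)
    (hag : ∀ k ∈ R, ∀ j, j ≠ 0 → j ≠ 6 → j ≠ 8 → k j = k0 j) :
    (R.card : ℝ) ≤ ((R.image (fun k => (k 6, k 8))).card : ℝ) * (3 * c ^ 2) := by
  classical
  apply card_le_mul_fib
  intro v hv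
  obtain ⟨k1, hk1, rfl⟩ := Finset.mem_image.mp hv
  apply fibA0 hM hc _ (fun k hk => hR k (Finset.mem_filter.mp hk).1) k1
  intro k hk j hj
  have hm := Finset.mem_filter.mp hk
  have hpe := Prod.ext_iff.mp hm.2
  simp only at hpe
  by_cases h2 : j = 6
  · subst h2; exact hpe.1
  · by_cases h3 : j = 8
    · subst h3; exact hpe.2
    · rw [hag k hm.1 j hj h2 h3, hag k1 hk1 j hj h2 h3]

/-- trivial bound -/
theorem trivA {M ε c : ℝ} (hM : 1 ≤ M) (hc : 1 ≤ c)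
    (R : Finset (Fin 10 → ℤ)) (k0 : Fin 10 → ℤ) (hR : ∀ k ∈ R, HA M ε c k)
    (hag : ∀ k ∈ R, ∀ j, j ≠ 0 → j ≠ 6 → j ≠ 8 → k j = k0 j) :
    (R.card : ℝ) ≤ 27 * c ^ 2 * M ^ 2 := by
  classical
  have h1 := pairsA_le hM hc R k0 hR hag
  have h2 := card_pairs hM (R.image (fun k => (k 6, k 8))) (by
    intro w hw
    obtain ⟨k, hk, rfl⟩ := Finset.mem_image.mp hw
    exact ⟨(hR k hk).1 6, (hR k hk).1 8⟩)
  calc _ ≤ _ := h1
    _ ≤ (9 * M ^ 2) * (3 * c ^ 2) := by gcongr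
    _ = _ := by ring

/-- good seven-tuples -/
theorem goodA {p : ℝ} (hp : 0 < p) (hp2 : p < 1 / 2) {c : ℝ} (hc : 1 ≤ c) :
    ∃ C0 : ℝ, 0 ≤ C0 ∧ ∀ (M ε : ℝ), 1 ≤ M → 1 / M ≤ ε → ε ≤ 1 →
      ∀ (R : Finset (Fin 10 → ℤ)) (k0 : Fin 10 → ℤ), (∀ k ∈ R, HA M ε c k) → HA M ε c k0 →
      (∀ k ∈ R, ∀ j, j ≠ 0 → j ≠ 6 → j ≠ 8 → k j = k0 j) →
      (4 * (k0 2 : ℝ) * ((4 * (k0 2 : ℝ) * k0 3 + (k0 9 : ℝ) ^ 2) * k0 1
        + rr (fun j => (k0 j : ℝ))) ≠ 0) →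
      (R.card : ℝ) ≤ C0 * M + C0 * (M ^ (2 - 4 * p) * (49 * c ^ 2 * (ε * M ^ 4)) ^ (2 * p)) *
        |4 * (k0 2 : ℝ) * ((4 * (k0 2 : ℝ) * k0 3 + (k0 9 : ℝ) ^ 2) * k0 1
        + rr (fun j => (k0 j : ℝ)))| ^ (-p) := by
  classical
  obtain ⟨C0, hC0, hq⟩ := quad_two hp hp2
  refine ⟨C0 * (3 * c ^ 2), by positivity, ?_⟩
  intro M ε hM hε hε1 R k0 hR hk0 hag hne
  have hM0 : 0 < M := by linarith
  have hc0 : 0 < c := by linarith
  have hε0 : 0 < ε := lt_of_lt_of_le (by positivity) hε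
  have hεM : 1 ≤ ε * M := by rw [div_le_iff₀ hM0] at hε; exact hε
  obtain ⟨hb0, h60, hF0, hD0⟩ := hk0
  have h6pos : 0 < |(k0 2 : ℝ)| := lt_of_lt_of_le (by positivity) h60
  have h6ne : (k0 2 : ℝ) ≠ 0 := abs_pos.mp h6pos
  set x : Fin 10 → ℝ := fun j => (k0 j : ℝ) with hx
  have hx6 : x 2 ≠ 0 := h6ne
  have hΔe : (4 * x 2 * x 3 + x 9 ^ 2) * (4 * x 1 * x 2 + x 7 ^ 2) -
      (-(2 * x 2 * (x 4 - x 5) + x 7 * x 9)) ^ 2 =
      4 * x 2 * ((4 * x 2 * x 3 + x 9 ^ 2) * x 1 + rr x) := by rw [rr]; ring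
  have hne' : (4 * x 2 * x 3 + x 9 ^ 2) * (4 * x 1 * x 2 + x 7 ^ 2) -
      (-(2 * x 2 * (x 4 - x 5) + x 7 * x 9)) ^ 2 ≠ 0 := by rw [hΔe]; exact hne
  have main := hq (4 * x 2 * x 3 + x 9 ^ 2) (-(2 * x 2 * (x 4 - x 5) + x 7 * x 9))
    (4 * x 1 * x 2 + x 7 ^ 2)
    (2 * x 9 * dl x / x 2 + 2 * ((x 4 - x 5) * x 9 - 2 * x 3 * x 7) * (x 4 + x 5))
    (-(2 * x 7 * dl x / x 2) - 2 * (2 * x 1 * x 9 - x 7 * (x 4 - x 5)) * (x 4 + x 5))
    (2 * (x 1 * x 3 + x 4 * x 5) * dl x / x 2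
        - (4 * x 1 * x 3 - (x 4 - x 5) ^ 2) * (x 4 + x 5) ^ 2)
    (49 * c ^ 2 * (ε * M ^ 4)) M hne' (by positivity) hM
    (R.image (fun k => (k 6, k 8))) (by
      intro w hw
      obtain ⟨k, hk, rfl⟩ := Finset.mem_image.mp hw
      obtain ⟨hb, h6, hF, hD⟩ := hR k hk
      refine ⟨hb 6, hb 8, ?_⟩
      simp only
      set y : Fin 10 → ℝ := fun j => (k j : ℝ) with hy
      have hj : ∀ j, j ≠ 0 → j ≠ 6 → j ≠ 8 → y j = x j := by
        intro j a b d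
        rw [hy, hx]; simp only; rw [hag k hk j a b d]
      have e1 := hj 1 (by decide) (by decide) (by decide)
      have e2 := hj 2 (by decide) (by decide) (by decide)
      have e3 := hj 3 (by decide) (by decide) (by decide)
      have e4 := hj 4 (by decide) (by decide) (by decide)
      have e5 := hj 5 (by decide) (by decide) (by decide)
      have e7 := hj 7 (by decide) (by decide) (by decide)
      have e9 := hj 9 (by decide) (by decide) (by decide)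
      have el : dl y = dl x := by rw [dl, dl, e1, e2, e3, e4, e5, e7, e9]
      have hy6 : y 2 ≠ 0 := by rw [e2]; exact hx6
      have hel := elimA y hy6
      have hdlb := dl_bound y hM0.le hb
      have htot : |DD y - 2 * dl y * FF y / y 2| ≤ 49 * c ^ 2 * (ε * M ^ 4) := by
        have h1 : |2 * dl y * FF y / y 2| ≤ 48 * c ^ 2 * M ^ 3 := by
          rw [abs_div, div_le_iff₀ (abs_pos.mpr hy6)]
          calc |2 * dl y * FF y| = 2 * (|dl y| * |FF y|) := by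
                simp only [abs_mul]; norm_num; ring
            _ ≤ 2 * ((24 * M ^ 3) * (c * M)) := by gcongr
            _ = 48 * c ^ 2 * M ^ 3 * (M / c) := by field_simp; ring
            _ ≤ 48 * c ^ 2 * M ^ 3 * |y 2| := by gcongr
        have k1 : c ≤ c ^ 2 := le_self_pow₀ hc two_ne_zero
        have k2 : M ^ 3 ≤ ε * M ^ 4 := by
          calc M ^ 3 = 1 * M ^ 3 := (one_mul _).symm
            _ ≤ (ε * M) * M ^ 3 := by gcongr
            _ = ε * M ^ 4 := by ring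
        calc |DD y - 2 * dl y * FF y / y 2| ≤ |DD y| + |2 * dl y * FF y / y 2| := abs_sub _ _
          _ ≤ c * (ε * M ^ 4) + 48 * c ^ 2 * M ^ 3 := by gcongr
          _ ≤ c ^ 2 * (ε * M ^ 4) + 48 * c ^ 2 * (ε * M ^ 4) := by gcongr
          _ = _ := by ring
      rw [← hel] at htot
      rw [el, e1, e2, e3, e4, e5, e7, e9] at htot
      exact htot)
  rw [hΔe] at main
  have h1 := pairsA_le hM hc R k0 hR hag
  calc _ ≤ _ := h1
    _ ≤ (C0 * (M + M ^ (2 - 4 * p) * (49 * c ^ 2 * (ε * M ^ 4)) ^ (2 * p) *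
        |4 * x 2 * ((4 * x 2 * x 3 + x 9 ^ 2) * x 1 + rr x)| ^ (-p))) * (3 * c ^ 2) := by
        gcongr
    _ = _ := by ring

/-- summation over the coordinate `1` -/
theorem stepA1 {p : ℝ} (hp : 0 < p) (hp2 : p < 1 / 2) {c : ℝ} (hc : 1 ≤ c) :
    ∃ C0 : ℝ, 0 ≤ C0 ∧ ∀ (M ε : ℝ), 1 ≤ M → 1 / M ≤ ε → ε ≤ 1 →
      ∀ (R : Finset (Fin 10 → ℤ)) (k0 : Fin 10 → ℤ), (∀ k ∈ R, HA M ε c k) → HA M ε c k0 →
      (∀ k ∈ R, ∀ j, j ≠ 0 → j ≠ 6 → j ≠ 8 → j ≠ 1 → k j = k0 j) →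
      ((R.card : ℝ) ≤ 3 * M * (27 * c ^ 2 * M ^ 2)) ∧
      ((4 * (k0 2 : ℝ) * k0 3 + (k0 9 : ℝ) ^ 2) ≠ 0 →
      (R.card : ℝ) ≤ 3 * (27 * c ^ 2 * M ^ 2) + 3 * M * (C0 * M) +
        C0 * (M ^ (2 - 4 * p) * (49 * c ^ 2 * (ε * M ^ 4)) ^ (2 * p)) *
        |4 * (k0 2 : ℝ) * (4 * (k0 2 : ℝ) * k0 3 + (k0 9 : ℝ) ^ 2)| ^ (-p) *
        (6 / (1 - p) * M ^ (1 - p))) := by
  classical
  obtain ⟨C0, hC0, hgood⟩ := goodA hp hp2 hc
  refine ⟨C0, hC0, ?_⟩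
  intro M ε hM hε hε1 R k0 hR hk0 hag
  have hM0 : 0 < M := by linarith
  have hc0 : 0 < c := by linarith
  have hε0 : 0 < ε := lt_of_lt_of_le (by positivity) hε
  have h20 : 0 < |(k0 2 : ℝ)| := lt_of_lt_of_le (by positivity) hk0.2.1
  have h2ne : (k0 2 : ℝ) ≠ 0 := abs_pos.mp h20
  have hA : ∀ t ∈ (R.image (fun k => k 1) : Finset ℤ), |(t:ℝ)| ≤ M := by
    intro t ht
    obtain ⟨k, hk, rfl⟩ := Finset.mem_image.mp ht
    exact (hR k hk).1 1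
  have hag' : ∀ k1 ∈ R, ∀ k ∈ R.filter (fun k => k 1 = k1 1), ∀ j, j ≠ 0 → j ≠ 6 → j ≠ 8 →
      k j = k1 j := by
    intro k1 hk1 k hk j h0 h6 h8
    have hm := Finset.mem_filter.mp hk
    by_cases h1 : j = 1
    · subst h1; exact hm.2
    · rw [hag k hm.1 j h0 h6 h8 h1, hag k1 hk1 j h0 h6 h8 h1]
  have hHA : ∀ k1 : Fin 10 → ℤ, ∀ k ∈ R.filter (fun k => k 1 = k1 1), HA M ε c k :=
    fun k1 k hk => hR k (Finset.mem_filter.mp hk).1
  have htriv : ∀ t ∈ (R.image (fun k => k 1) : Finset ℤ), ((R.filter (fun k => k 1 = t)).card : ℝ) ≤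
      27 * c ^ 2 * M ^ 2 := by
    intro t ht
    obtain ⟨k1, hk1, rfl⟩ := Finset.mem_image.mp ht
    exact trivA hM hc _ k1 (hHA k1) (hag' k1 hk1)
  constructor
  · have h1 := card_le_mul_fib R (fun k => k 1) (27 * c ^ 2 * M ^ 2) htriv
    have h2 := card_le_M hM _ hA
    refine h1.trans ?_
    gcongr
  · intro hα
    set α := 4 * (k0 2 : ℝ) * k0 3 + (k0 9 : ℝ) ^ 2 with hαd
    set ρ := -(rr (fun j => (k0 j : ℝ))) / α with hρ
    have hsum := card_le_sum_fib R (fun k => k 1)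
      (fun t => ((R.filter (fun k => k 1 = t)).card : ℝ)) (fun t _ => le_refl _)
    refine hsum.trans ?_
    have hfar : ∀ t ∈ (R.image (fun k => k 1) : Finset ℤ), 1 ≤ |(t:ℝ) - ρ| →
        ((R.filter (fun k => k 1 = t)).card : ℝ) ≤ C0 * M +
        C0 * (M ^ (2 - 4 * p) * (49 * c ^ 2 * (ε * M ^ 4)) ^ (2 * p)) *
        |4 * (k0 2 : ℝ) * α| ^ (-p) * |(t:ℝ) - ρ| ^ (-p) := by
      intro t ht hfar
      obtain ⟨k1, hk1, rfl⟩ := Finset.mem_image.mp ht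
      have e2 : k1 2 = k0 2 := hag k1 hk1 2 (by decide) (by decide) (by decide) (by decide)
      have e3 : k1 3 = k0 3 := hag k1 hk1 3 (by decide) (by decide) (by decide) (by decide)
      have e4 : k1 4 = k0 4 := hag k1 hk1 4 (by decide) (by decide) (by decide) (by decide)
      have e5 : k1 5 = k0 5 := hag k1 hk1 5 (by decide) (by decide) (by decide) (by decide)
      have e7 : k1 7 = k0 7 := hag k1 hk1 7 (by decide) (by decide) (by decide) (by decide)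
      have e9 : k1 9 = k0 9 := hag k1 hk1 9 (by decide) (by decide) (by decide) (by decide)
      have er : rr (fun j => (k1 j : ℝ)) = rr (fun j => (k0 j : ℝ)) := by
        rw [rr, rr]; simp only [e2, e3, e4, e5, e7, e9]
      have hg := hgood M ε hM hε hε1 (R.filter (fun k => k 1 = k1 1)) k1 (hHA k1) (hR k1 hk1)
        (hag' k1 hk1)
      rw [er, e2, e3, e9] at hg
      have ef : 4 * (k0 2 : ℝ) * ((4 * (k0 2 : ℝ) * k0 3 + (k0 9 : ℝ) ^ 2) * k1 1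
          + rr (fun j => (k0 j : ℝ))) = 4 * (k0 2 : ℝ) * α * ((k1 1 : ℝ) - ρ) := by
        rw [hρ, ← hαd]; field_simp; ring
      have hpos : 0 < |(k1 1 : ℝ) - ρ| := by linarith
      have hne : 4 * (k0 2 : ℝ) * α * ((k1 1 : ℝ) - ρ) ≠ 0 := by
        apply mul_ne_zero (mul_ne_zero (mul_ne_zero (by norm_num) h2ne) hα) (abs_pos.mp hpos)
      rw [ef] at hg
      refine (hg hne).trans (le_of_eq ?_)
      rw [abs_mul (4 * (k0 2 : ℝ) * α), Real.mul_rpow (abs_nonneg _) (abs_nonneg _)]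
      ring
    exact sum_one hp (by linarith) ρ hM _ hA _ (by positivity) (by positivity) (by positivity)
      (fun t ht _ => htriv t ht) hfar

/-- summation over the coordinate `3` -/
theorem stepA3 {p : ℝ} (hp : 0 < p) (hp2 : p < 1 / 2) {c : ℝ} (hc : 1 ≤ c) :
    ∃ C0 : ℝ, 0 ≤ C0 ∧ ∀ (M ε : ℝ), 1 ≤ M → 1 / M ≤ ε → ε ≤ 1 →
      ∀ (R : Finset (Fin 10 → ℤ)) (k0 : Fin 10 → ℤ), (∀ k ∈ R, HA M ε c k) → HA M ε c k0 →
      (∀ k ∈ R, ∀ j, j ≠ 0 → j ≠ 6 → j ≠ 8 → j ≠ 1 → j ≠ 3 → k j = k0 j) →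
      (R.card : ℝ) ≤ C0 * (ε ^ (2 * p) * M ^ 4) := by
  classical
  obtain ⟨C0, hC0, hgood⟩ := stepA1 hp hp2 hc
  refine ⟨486 * c ^ 2 + 9 * C0 + C0 * (49 * c ^ 2) * c * (6 / (1 - p)) ^ 2, by positivity, ?_⟩
  intro M ε hM hε hε1 R k0 hR hk0 hag
  have hM0 : 0 < M := by linarith
  have hc0 : 0 < c := by linarith
  have hp1 : 0 < 1 - p := by linarith
  have hε0 : 0 < ε := lt_of_lt_of_le (by positivity) hε
  have h20 : 0 < |(k0 2 : ℝ)| := lt_of_lt_of_le (by positivity) hk0.2.1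
  have h2ne : (k0 2 : ℝ) ≠ 0 := abs_pos.mp h20
  have hA : ∀ t ∈ (R.image (fun k => k 3) : Finset ℤ), |(t:ℝ)| ≤ M := by
    intro t ht
    obtain ⟨k, hk, rfl⟩ := Finset.mem_image.mp ht
    exact (hR k hk).1 3
  have hag' : ∀ k1 ∈ R, ∀ k ∈ R.filter (fun k => k 3 = k1 3), ∀ j, j ≠ 0 → j ≠ 6 → j ≠ 8 →
      j ≠ 1 → k j = k1 j := by
    intro k1 hk1 k hk j h0 h6 h8 h1
    have hm := Finset.mem_filter.mp hk
    by_cases h3 : j = 3
    · subst h3; exact hm.2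
    · rw [hag k hm.1 j h0 h6 h8 h1 h3, hag k1 hk1 j h0 h6 h8 h1 h3]
  have hHA : ∀ k1 : Fin 10 → ℤ, ∀ k ∈ R.filter (fun k => k 3 = k1 3), HA M ε c k :=
    fun k1 k hk => hR k (Finset.mem_filter.mp hk).1
  have htriv : ∀ t ∈ (R.image (fun k => k 3) : Finset ℤ), ((R.filter (fun k => k 3 = t)).card : ℝ) ≤
      3 * M * (27 * c ^ 2 * M ^ 2) := by
    intro t ht
    obtain ⟨k1, hk1, rfl⟩ := Finset.mem_image.mp ht
    exact (hgood M ε hM hε hε1 _ k1 (hHA k1) (hR k1 hk1) (hag' k1 hk1)).1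
  set ρ := -((k0 9 : ℝ) ^ 2) / (4 * (k0 2 : ℝ)) with hρ
  set B := M ^ (2 - 4 * p) * (49 * c ^ 2 * (ε * M ^ 4)) ^ (2 * p) with hB
  have hB0 : 0 ≤ B := by positivity
  have hsum := card_le_sum_fib R (fun k => k 3)
    (fun t => ((R.filter (fun k => k 3 = t)).card : ℝ)) (fun t _ => le_refl _)
  have hfar : ∀ t ∈ (R.image (fun k => k 3) : Finset ℤ), 1 ≤ |(t:ℝ) - ρ| →
      ((R.filter (fun k => k 3 = t)).card : ℝ) ≤
      (3 * (27 * c ^ 2 * M ^ 2) + 3 * M * (C0 * M)) +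
      (C0 * B * |16 * (k0 2 : ℝ) ^ 2| ^ (-p) * (6 / (1 - p) * M ^ (1 - p))) * |(t:ℝ) - ρ| ^ (-p) := by
    intro t ht hfar
    obtain ⟨k1, hk1, rfl⟩ := Finset.mem_image.mp ht
    have e2 : k1 2 = k0 2 := hag k1 hk1 2 (by decide) (by decide) (by decide) (by decide) (by decide)
    have e9 : k1 9 = k0 9 := hag k1 hk1 9 (by decide) (by decide) (by decide) (by decide) (by decide)
    have hg := (hgood M ε hM hε hε1 (R.filter (fun k => k 3 = k1 3)) k1 (hHA k1) (hR k1 hk1)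
      (hag' k1 hk1)).2
    rw [e2, e9] at hg
    have ef : 4 * (k0 2 : ℝ) * (k1 3 : ℝ) + (k0 9 : ℝ) ^ 2 = 4 * (k0 2 : ℝ) * ((k1 3 : ℝ) - ρ) := by
      rw [hρ]; field_simp; ring
    have hpos : 0 < |(k1 3 : ℝ) - ρ| := by linarith
    have hne : 4 * (k0 2 : ℝ) * ((k1 3 : ℝ) - ρ) ≠ 0 := by
      apply mul_ne_zero (mul_ne_zero (by norm_num) h2ne) (abs_pos.mp hpos)
    rw [ef] at hg
    refine (hg hne).trans (le_of_eq ?_)
    have ef2 : 4 * (k0 2 : ℝ) * (4 * (k0 2 : ℝ) * ((k1 3 : ℝ) - ρ)) =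
      16 * (k0 2 : ℝ) ^ 2 * ((k1 3 : ℝ) - ρ) := by ring
    rw [ef2, abs_mul (16 * (k0 2 : ℝ) ^ 2), Real.mul_rpow (abs_nonneg _) (abs_nonneg _)]
    ring
  have h1 := sum_one hp (by linarith) ρ hM _ hA _ (by positivity) (by positivity) (by positivity)
      (fun t ht _ => htriv t ht) hfar
  refine (hsum.trans h1).trans ?_
  have h16 : |16 * (k0 2 : ℝ) ^ 2| ^ (-p) ≤ c * M ^ (-(2 * p)) := by
    have h2 : (M / c) ^ 2 ≤ |16 * (k0 2 : ℝ) ^ 2| := by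
      have h3 : |16 * (k0 2 : ℝ) ^ 2| = 16 * |(k0 2 : ℝ)| ^ 2 := by
        rw [abs_mul, abs_pow]; norm_num
      have h4 : (M / c) ^ 2 ≤ |(k0 2 : ℝ)| ^ 2 := by
        have := hk0.2.1
        gcongr
      rw [h3]
      nlinarith [sq_nonneg |(k0 2 : ℝ)|]
    have h5 : |16 * (k0 2 : ℝ) ^ 2| ^ (-p) ≤ ((M / c) ^ 2) ^ (-p) :=
      Real.rpow_le_rpow_of_nonpos (by positivity) h2 (by linarith)
    refine h5.trans ?_
    have h3 : ((M / c) ^ 2) ^ (-p) = M ^ (-(2 * p)) * c ^ (2 * p) := by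
      rw [← Real.rpow_natCast, ← Real.rpow_mul (by positivity)]
      have : ((2:ℕ):ℝ) * -p = -(2 * p) := by push_cast; ring
      rw [this, Real.div_rpow hM0.le hc0.le, Real.rpow_neg hc0.le (2 * p)]
      field_simp
    rw [h3, mul_comm]
    have h4 := const_rpow_le (q := 2 * p) hc (by linarith)
    gcongr
  have hc2 : 1 ≤ 49 * c ^ 2 := by nlinarith
  have hE1 := E_rpow hp hp2 hM hε0 hc2
  have hpow : M ^ (2 - 4 * p) * (M ^ (8 * p) * (M ^ (-(2 * p)) * (M ^ (1 - p) * M ^ (1 - p)))) =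
      M ^ 4 := by
    rw [← Real.rpow_add hM0, ← Real.rpow_add hM0, ← Real.rpow_add hM0, ← Real.rpow_add hM0]
    have : 2 - 4 * p + (8 * p + (-(2 * p) + (1 - p + (1 - p)))) = ((4:ℕ):ℝ) := by
      push_cast; ring
    rw [this, Real.rpow_natCast]
  have hM3 : M ^ 3 ≤ ε ^ (2 * p) * M ^ 4 := by
    have := eps_pow hp hp2 hM hε hε1
    calc M ^ 3 = 1 * M ^ 3 := (one_mul _).symm
      _ ≤ (ε ^ (2 * p) * M) * M ^ 3 := by gcongr
      _ = _ := by ring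
  have hlast : C0 * B * |16 * (k0 2 : ℝ) ^ 2| ^ (-p) * (6 / (1 - p) * M ^ (1 - p)) *
      (6 / (1 - p) * M ^ (1 - p)) ≤
      C0 * (49 * c ^ 2) * c * (6 / (1 - p)) ^ 2 * (ε ^ (2 * p) * M ^ 4) := by
    rw [hB]
    calc _ ≤ C0 * (M ^ (2 - 4 * p) * (49 * c ^ 2 * (ε ^ (2 * p) * M ^ (8 * p)))) *
          (c * M ^ (-(2 * p))) * (6 / (1 - p) * M ^ (1 - p)) * (6 / (1 - p) * M ^ (1 - p)) := by
          gcongr
      _ = C0 * (49 * c ^ 2) * c * (6 / (1 - p)) ^ 2 * (ε ^ (2 * p) *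
          (M ^ (2 - 4 * p) * (M ^ (8 * p) * (M ^ (-(2 * p)) * (M ^ (1 - p) * M ^ (1 - p)))))) := by
          ring
      _ = _ := by rw [hpow]
  have e1 : 3 * (3 * M * (27 * c ^ 2 * M ^ 2)) +
      3 * M * (3 * (27 * c ^ 2 * M ^ 2) + 3 * M * (C0 * M)) =
      (486 * c ^ 2 + 9 * C0) * M ^ 3 := by ring
  calc _ = (486 * c ^ 2 + 9 * C0) * M ^ 3 +
      C0 * B * |16 * (k0 2 : ℝ) ^ 2| ^ (-p) * (6 / (1 - p) * M ^ (1 - p)) *
      (6 / (1 - p) * M ^ (1 - p)) := by rw [← e1]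
    _ ≤ (486 * c ^ 2 + 9 * C0) * (ε ^ (2 * p) * M ^ 4) +
      C0 * (49 * c ^ 2) * c * (6 / (1 - p)) ^ 2 * (ε ^ (2 * p) * M ^ 4) := by
        gcongr
    _ = _ := by ring

/-- case A -/
theorem caseA {p : ℝ} (hp : 0 < p) (hp2 : p < 1 / 2) {c : ℝ} (hc : 1 ≤ c) :
    ∃ C' : ℝ, 0 ≤ C' ∧ ∀ (M ε : ℝ), 1 ≤ M → 1 / M ≤ ε → ε ≤ 1 →
      ∀ (R : Finset (Fin 10 → ℤ)), (∀ k ∈ R, HA M ε c k) →
      (R.card : ℝ) ≤ C' * (ε ^ (2 * p) * M ^ 9) := by
  classical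
  obtain ⟨C1, hC1, hstep⟩ := stepA3 hp hp2 hc
  refine ⟨3 ^ 5 * C1, by positivity, ?_⟩
  intro M ε hM hε hε1 R hR
  have hM0 : 0 < M := by linarith
  have hε0 : 0 < ε := lt_of_lt_of_le (by positivity) hε
  have h1 := card_le_mul_fib R (fun k => (![k 2, k 4, k 5, k 7, k 9] : Fin 5 → ℤ))
    (C1 * (ε ^ (2 * p) * M ^ 4)) (by
      intro w hw
      obtain ⟨k0, hk0, rfl⟩ := Finset.mem_image.mp hw
      apply hstep M ε hM hε hε1 _ k0 (fun k hk => hR k (Finset.mem_filter.mp hk).1) (hR k0 hk0)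
      intro k hk j h0 h6 h8 h1 h3
      have he := (Finset.mem_filter.mp hk).2
      have a0 : k 2 = k0 2 := congrFun he 0
      have a1 : k 4 = k0 4 := congrFun he 1
      have a2 : k 5 = k0 5 := congrFun he 2
      have a3 : k 7 = k0 7 := congrFun he 3
      have a4 : k 9 = k0 9 := congrFun he 4
      fin_cases j
      · exact absurd rfl h0
      · exact absurd rfl h1
      · exact a0
      · exact absurd rfl h3
      · exact a1
      · exact a2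
      · exact absurd rfl h6
      · exact a3
      · exact absurd rfl h8
      · exact a4)
  have h2 := card_box (n := 5) hM (R.image (fun k => (![k 2, k 4, k 5, k 7, k 9] : Fin 5 → ℤ)))
    (by
      intro w hw i
      obtain ⟨k, hk, rfl⟩ := Finset.mem_image.mp hw
      have hb := (hR k hk).1
      fin_cases i
      · exact hb 2
      · exact hb 4
      · exact hb 5
      · exact hb 7
      · exact hb 9)
  refine h1.trans ?_
  calc _ ≤ (3 * M) ^ 5 * (C1 * (ε ^ (2 * p) * M ^ 4)) := by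
        gcongr
    _ = _ := by ring

end Pool.Agent.PP5A
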