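import Pool.Agent.PP5A.Alg

/-!
# PP5, archimedean count: the case where the coordinate `6` is large
-/

namespace Pool.Agent.PP5A

open Finset Real Pool.Agent.PP5L

theorem eps_pow {p M ε : ℝ} (hp : 0 < p) (hp2 : p < 1 / 2) (hM : 1 ≤ M) (hε : 1 / M ≤ ε)
    (hε1 : ε ≤ 1) : 1 ≤ ε ^ (2 * p) * M := by
  have hM0 : 0 < M := by linarith
  have hε0 : 0 < ε := lt_of_lt_of_le (by positivity) hε
  have h1 : ε ^ (1:ℝ) ≤ ε ^ (2 * p) :=
    Real.rpow_le_rpow_of_exponent_ge hε0 hε1 (by linarith)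
  rw [Real.rpow_one] at h1
  have h2 : 1 ≤ ε * M := by
    rw [div_le_iff₀ hM0] at hε; exact hε
  nlinarith

/-- powers of constants -/
theorem const_rpow_le {a q : ℝ} (ha : 1 ≤ a) (hq1 : q ≤ 1) : a ^ q ≤ a := by
  calc a ^ q ≤ a ^ (1:ℝ) := Real.rpow_le_rpow_of_exponent_le ha hq1
    _ = a := Real.rpow_one _

theorem E_rpow {p M ε a : ℝ} (hp : 0 < p) (hp2 : p < 1 / 2) (hM : 1 ≤ M) (hε0 : 0 < ε)
    (ha : 1 ≤ a) : (a * (ε * M ^ 4)) ^ (2 * p) ≤ a * (ε ^ (2 * p) * M ^ (8 * p)) := by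
  have hM0 : 0 < M := by linarith
  rw [Real.mul_rpow (by linarith) (by positivity), Real.mul_rpow hε0.le (by positivity)]
  have h1 : (M ^ 4) ^ (2 * p) = M ^ (8 * p) := by
    rw [← Real.rpow_natCast, ← Real.rpow_mul hM0.le]; congr 1; push_cast; ring
  rw [h1]
  exact mul_le_mul_of_nonneg_right (const_rpow_le ha (by linarith)) (by positivity)

theorem kap_bound {x0 x1 z : ℝ} (hz : z ≠ 0) (h0 : |x0| ≤ |z| / 16) (h1 : |x1| ≤ |z| / 16) :
    3 * z ^ 4 ≤ |((4 * x0 * x1 + z ^ 2) / z ^ 2 * x0 ^ 2) * ((4 * x0 * x1 + z ^ 2) / z ^ 2 * x1 ^ 2)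
      - ((4 * x0 * x1 + z ^ 2) / z ^ 2 * (2 * z ^ 2 - x0 * x1)) ^ 2| := by
  have hz2 : 0 < z ^ 2 := by positivity
  set q := x0 * x1 with hq
  have hqz : |q| ≤ z ^ 2 / 256 := by
    rw [hq, abs_mul]
    calc |x0| * |x1| ≤ (|z| / 16) * (|z| / 16) := by gcongr
      _ = z ^ 2 / 256 := by
        have := sq_abs z
        rw [← this]; ring
  have hq1 := abs_le.mp hqz
  set κ := (4 * x0 * x1 + z ^ 2) / z ^ 2 with hκ
  have hκ1 : κ = 1 + 4 * (q / z ^ 2) := by rw [hκ, hq]; field_simp; ring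
  have hκ2 : 63 / 64 ≤ κ := by
    have : -(1 / 256) ≤ q / z ^ 2 := by rw [le_div_iff₀ hz2]; linarith [hq1.1]
    linarith
  have e1 : (κ * x0 ^ 2) * (κ * x1 ^ 2) - (κ * (2 * z ^ 2 - q)) ^ 2 =
      -(4 * κ ^ 2 * (z ^ 2 * (z ^ 2 - q))) := by rw [hq]; ring
  rw [e1, abs_neg]
  have h3 : z ^ 2 * (255 / 256 * z ^ 2) ≤ z ^ 2 * (z ^ 2 - q) :=
    mul_le_mul_of_nonneg_left (by linarith [hq1.2]) hz2.le
  have h4 : (63 / 64) ^ 2 ≤ κ ^ 2 := by gcongr
  have h5 : 0 ≤ z ^ 2 * (z ^ 2 - q) := le_trans (by positivity) h3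
  rw [abs_of_nonneg (by positivity)]
  calc 3 * z ^ 4 ≤ 4 * (63 / 64) ^ 2 * (z ^ 2 * (255 / 256 * z ^ 2)) := by nlinarith [sq_nonneg (z ^ 2)]
    _ ≤ 4 * κ ^ 2 * (z ^ 2 * (z ^ 2 - q)) := by
      apply mul_le_mul (by linarith) h3 (by positivity) (by positivity)

/-- bounds for the polynomials -/
theorem l9_bound (x : Fin 10 → ℝ) {M : ℝ} (hM : 0 ≤ M) (hx : ∀ j, |x j| ≤ M) :
    |l9 x| ≤ 26 * M ^ 3 := by
  have h := fun j => hx j
  have a45 : |x 4 - x 5| ≤ 2 * M := by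
    have := abs_sub (x 4) (x 5); linarith [h 4, h 5]
  have b45 : |x 4 + x 5| ≤ 2 * M := by
    have := abs_add_le (x 4) (x 5); linarith [h 4, h 5]
  have e1 : |2 * x 0 * (- 2 * (x 4 - x 5) * x 7)| ≤ 8 * M ^ 3 := by
    have : |2 * x 0 * (- 2 * (x 4 - x 5) * x 7)| = 4 * (|x 0| * |x 4 - x 5| * |x 7|) := by
      simp only [abs_mul, abs_neg]; norm_num; ring
    rw [this]
    calc 4 * (|x 0| * |x 4 - x 5| * |x 7|) ≤ 4 * (M * (2 * M) * M) := by
          gcongr <;> exact h _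
      _ = _ := by ring
  have e2 : |2 * (x 4 - x 5) * (x 4 + x 5) * x 6| ≤ 8 * M ^ 3 := by
    have : |2 * (x 4 - x 5) * (x 4 + x 5) * x 6| = 2 * (|x 4 - x 5| * |x 4 + x 5| * |x 6|) := by
      simp only [abs_mul]; norm_num; ring
    rw [this]
    calc 2 * (|x 4 - x 5| * |x 4 + x 5| * |x 6|) ≤ 2 * ((2 * M) * (2 * M) * M) := by
          gcongr; exact h _
      _ = _ := by ring
  have e3 : |4 * x 1 * (x 4 + x 5) * x 8| ≤ 8 * M ^ 3 := by
    have : |4 * x 1 * (x 4 + x 5) * x 8| = 4 * (|x 1| * |x 4 + x 5| * |x 8|) := by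
      simp only [abs_mul]; norm_num; ring
    rw [this]
    calc 4 * (|x 1| * |x 4 + x 5| * |x 8|) ≤ 4 * (M * (2 * M) * M) := by
          gcongr <;> exact h _
      _ = _ := by ring
  have e4 : |2 * x 7 * x 6 * x 8| ≤ 2 * M ^ 3 := by
    have : |2 * x 7 * x 6 * x 8| = 2 * (|x 7| * |x 6| * |x 8|) := by
      simp only [abs_mul]; norm_num; ring
    rw [this]
    calc 2 * (|x 7| * |x 6| * |x 8|) ≤ 2 * (M * M * M) := by
          gcongr <;> exact h _
      _ = _ := by ring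
  rw [l9]
  have f1 := abs_sub (2 * x 0 * (- 2 * (x 4 - x 5) * x 7) + 2 * (x 4 - x 5) * (x 4 + x 5) * x 6
    - 4 * x 1 * (x 4 + x 5) * x 8) (2 * x 7 * x 6 * x 8)
  have f2 := abs_sub (2 * x 0 * (- 2 * (x 4 - x 5) * x 7) + 2 * (x 4 - x 5) * (x 4 + x 5) * x 6)
    (4 * x 1 * (x 4 + x 5) * x 8)
  have f3 := abs_add_le (2 * x 0 * (- 2 * (x 4 - x 5) * x 7)) (2 * (x 4 - x 5) * (x 4 + x 5) * x 6)
  linarith

/-- the hypotheses for case B -/
def HB (M ε c : ℝ) (k : Fin 10 → ℤ) : Prop :=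
  (∀ j, |(k j : ℝ)| ≤ M) ∧ M / c ≤ |(k 6 : ℝ)| ∧ |(k 0 : ℝ)| ≤ |(k 6 : ℝ)| / 16 ∧
    |(k 1 : ℝ)| ≤ |(k 6 : ℝ)| / 16 ∧ |FF (fun j => (k j : ℝ))| ≤ c * M ∧
    |DD (fun j => (k j : ℝ))| ≤ c * (ε * M ^ 4)

/-- the last coordinate -/
theorem fibB9 {M ε c : ℝ} (hM : 1 ≤ M) (hc : 1 ≤ c) (R : Finset (Fin 10 → ℤ))
    (hR : ∀ k ∈ R, HB M ε c k) (k0 : Fin 10 → ℤ)
    (h : ∀ k ∈ R, ∀ j, j ≠ 9 → k j = k0 j) : (R.card : ℝ) ≤ 3 * c ^ 2 := by
  classical
  have hcard : R.card = (R.image (fun k => k 9)).card := by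
    rw [Finset.card_image_of_injOn]
    intro k hk k' hk' hkk
    funext j
    by_cases hj : j = 9
    · subst hj; exact hkk
    · rw [h k hk j hj, h k' hk' j hj]
  rw [hcard]
  have := card_le_of_diff (A := R.image (fun k => k 9)) (L := 2 * c ^ 2) (by positivity) (by
    intro s hs s' hs'
    obtain ⟨k, hk, rfl⟩ := Finset.mem_image.mp hs
    obtain ⟨k', hk', rfl⟩ := Finset.mem_image.mp hs'
    obtain ⟨_, h6, _, _, hF, _⟩ := hR k hk
    obtain ⟨_, _, _, _, hF', _⟩ := hR k' hk'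
    rw [FF] at hF hF'
    simp only [h k' hk' 0 (by decide), h k' hk' 1 (by decide), h k' hk' 2 (by decide),
      h k' hk' 3 (by decide), h k' hk' 4 (by decide), h k' hk' 5 (by decide),
      h k' hk' 6 (by decide), h k' hk' 7 (by decide), h k' hk' 8 (by decide)] at hF'
    simp only [h k hk 0 (by decide), h k hk 1 (by decide), h k hk 2 (by decide),
      h k hk 3 (by decide), h k hk 4 (by decide), h k hk 5 (by decide),
      h k hk 6 (by decide), h k hk 7 (by decide), h k hk 8 (by decide)] at hF h6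
    have h9 : |(k0 6 : ℝ)| * |(k' 9 : ℝ) - k 9| ≤ 2 * (c * M) := by
      rw [← abs_mul]
      have e : (k0 6 : ℝ) * ((k' 9 : ℝ) - k 9) =
        ((k0 0 : ℝ) * k0 2 - k0 1 * k0 3 - k0 4 * k0 5 - k0 6 * k 9 + k0 7 * k0 8) -
        ((k0 0 : ℝ) * k0 2 - k0 1 * k0 3 - k0 4 * k0 5 - k0 6 * k' 9 + k0 7 * k0 8) := by ring
      rw [e]
      refine (abs_sub _ _).trans ?_
      linarith
    have hc0 : 0 < c := by linarith
    have h10 : M / c * |(k' 9 : ℝ) - k 9| ≤ 2 * (c * M) :=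
      (mul_le_mul_of_nonneg_right h6 (abs_nonneg _)).trans h9
    have h11 : M * |(k' 9 : ℝ) - k 9| ≤ M * (2 * c ^ 2) := by
      have : M / c * |(k' 9 : ℝ) - k 9| = M * |(k' 9 : ℝ) - k 9| / c := by ring
      rw [this, div_le_iff₀ hc0] at h10
      linarith
    have h12 := le_of_mul_le_mul_left h11 (by linarith)
    exact (le_abs_self _).trans h12)
  nlinarith

/-- the pairs (coordinates `2` and `3`) -/
theorem pairsB {p : ℝ} (hp : 0 < p) (hp2 : p < 1 / 2) {c : ℝ} (hc : 1 ≤ c) :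
    ∃ C' : ℝ, 0 ≤ C' ∧ ∀ (M ε : ℝ), 1 ≤ M → 1 / M ≤ ε → ε ≤ 1 →
      ∀ (R : Finset (Fin 10 → ℤ)) (k0 : Fin 10 → ℤ), (∀ k ∈ R, HB M ε c k) → HB M ε c k0 →
      (∀ k ∈ R, ∀ j, j ≠ 9 → j ≠ 2 → j ≠ 3 → k j = k0 j) →
      ((R.image (fun k => (k 2, k 3))).card : ℝ) ≤ C' * (ε ^ (2 * p) * M ^ 2) := by
  classical
  obtain ⟨C0, hC0, hq⟩ := quad_two hp hp2
  refine ⟨C0 * (1 + 42 * c ^ 4 * c ^ 2), by positivity, ?_⟩
  intro M ε hM hε hε1 R k0 hR hk0 hag
  have hM0 : 0 < M := by linarith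
  have hc0 : 0 < c := by linarith
  have hε0 : 0 < ε := lt_of_lt_of_le (by positivity) hε
  have hεM : 1 ≤ ε * M := by rw [div_le_iff₀ hM0] at hε; exact hε
  obtain ⟨hb0, h60, h00, h10, hF0, hD0⟩ := hk0
  have h6pos : 0 < |(k0 6 : ℝ)| := lt_of_lt_of_le (by positivity) h60
  have h6ne : (k0 6 : ℝ) ≠ 0 := abs_pos.mp h6pos
  have hΔ := kap_bound h6ne h00 h10
  set x : Fin 10 → ℝ := fun j => (k0 j : ℝ) with hx
  have hx6 : x 6 ≠ 0 := h6ne
  set κ := (4 * x 0 * x 1 + x 6 ^ 2) / x 6 ^ 2 with hκ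
  have hΔ' : 3 * x 6 ^ 4 ≤ |κ * x 0 ^ 2 * (κ * x 1 ^ 2) - (κ * (2 * x 6 ^ 2 - x 0 * x 1)) ^ 2| := hΔ
  have hx64 : 0 < x 6 ^ 4 := by positivity
  have hΔpos : 0 < |κ * x 0 ^ 2 * (κ * x 1 ^ 2) - (κ * (2 * x 6 ^ 2 - x 0 * x 1)) ^ 2| := by
    linarith
  have main := hq (κ * x 0 ^ 2) (κ * (2 * x 6 ^ 2 - x 0 * x 1)) (κ * x 1 ^ 2)
    (2 * (4 * x 0 * x 1 + x 6 ^ 2) / x 6 ^ 2 * x 0 * (x 7 * x 8 - x 4 * x 5) + l9 x * x 0 / x 6
          + (- 4 * x 0 * (x 4 - x 5) ^ 2 + 4 * x 1 * x 8 ^ 2 - 4 * (x 4 - x 5) * x 6 * x 8))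
    (- (2 * (4 * x 0 * x 1 + x 6 ^ 2) / x 6 ^ 2 * x 1 * (x 7 * x 8 - x 4 * x 5))
          - l9 x * x 1 / x 6
          + (4 * x 0 * x 7 ^ 2 - 4 * x 1 * (x 4 + x 5) ^ 2 - 4 * x 7 * (x 4 + x 5) * x 6))
    ((4 * x 0 * x 1 + x 6 ^ 2) / x 6 ^ 2 * (x 7 * x 8 - x 4 * x 5) ^ 2
          + l9 x * (x 7 * x 8 - x 4 * x 5) / x 6
          + ((x 4 - x 5) ^ 2 * (x 4 + x 5) ^ 2 + x 7 ^ 2 * x 8 ^ 2
            + 2 * x 7 * (x 4 - x 5) * (x 4 + x 5) * x 8))
    (42 * c ^ 4 * (ε * M ^ 4)) M (abs_pos.mp hΔpos) (by positivity) hM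
    (R.image (fun k => (k 2, k 3))) (by
      intro w hw
      obtain ⟨k, hk, rfl⟩ := Finset.mem_image.mp hw
      obtain ⟨hb, h6, h0, h1, hF, hD⟩ := hR k hk
      refine ⟨hb 2, hb 3, ?_⟩
      simp only
      set y : Fin 10 → ℝ := fun j => (k j : ℝ) with hy
      have hj : ∀ j, j ≠ 9 → j ≠ 2 → j ≠ 3 → y j = x j := by
        intro j a b d
        rw [hy, hx]; simp only; rw [hag k hk j a b d]
      have e0 := hj 0 (by decide) (by decide) (by decide)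
      have e1 := hj 1 (by decide) (by decide) (by decide)
      have e4 := hj 4 (by decide) (by decide) (by decide)
      have e5 := hj 5 (by decide) (by decide) (by decide)
      have e6 := hj 6 (by decide) (by decide) (by decide)
      have e7 := hj 7 (by decide) (by decide) (by decide)
      have e8 := hj 8 (by decide) (by decide) (by decide)
      have el : l9 y = l9 x := by rw [l9, l9, e0, e1, e4, e5, e6, e7, e8]
      have hy6 : y 6 ≠ 0 := by rw [e6]; exact hx6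
      have hel := elimB y ((y 0 * y 2 - y 1 * y 3 - y 4 * y 5 + y 7 * y 8) / y 6) hy6 rfl
      set z := (y 0 * y 2 - y 1 * y 3 - y 4 * y 5 + y 7 * y 8) / y 6 with hz
      have hzb : |z - y 9| ≤ c ^ 2 := by
        have e : z - y 9 = FF y / y 6 := by
          rw [hz, FF]; field_simp; ring
        rw [e, abs_div, div_le_iff₀ (abs_pos.mpr hy6)]
        calc |FF y| ≤ c * M := hF
          _ = c ^ 2 * (M / c) := by field_simp
          _ ≤ c ^ 2 * |y 6| := by gcongr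
      have hlb := l9_bound y hM0.le hb
      have hc2 : 1 ≤ c ^ 2 := one_le_pow₀ hc
      have hyz : |z + y 9| ≤ 3 * c ^ 2 * M := by
        have e : z + y 9 = (z - y 9) + 2 * y 9 := by ring
        have h9 : |2 * y 9| ≤ 2 * M := by
          rw [abs_mul]
          have := hb 9
          have h2 : |(2:ℝ)| = 2 := by norm_num
          rw [h2]
          have : |y 9| ≤ M := hb 9
          linarith
        rw [e]
        calc |z - y 9 + 2 * y 9| ≤ |z - y 9| + |2 * y 9| := abs_add_le _ _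
          _ ≤ c ^ 2 + 2 * M := by linarith
          _ ≤ 3 * c ^ 2 * M := by
            have k1 : c ^ 2 * 1 ≤ c ^ 2 * M := mul_le_mul_of_nonneg_left hM (sq_nonneg c)
            have k2 : 1 * M ≤ c ^ 2 * M := mul_le_mul_of_nonneg_right hc2 hM0.le
            have k3 : 3 * c ^ 2 * M = c ^ 2 * M + 2 * (c ^ 2 * M) := by ring
            rw [k3]
            linarith only [k1, k2]
      have hP : |4 * y 0 * y 1 + y 6 ^ 2| ≤ 5 * M ^ 2 := by
        have a0 : |y 0| ≤ M := hb 0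
        have a1 : |y 1| ≤ M := hb 1
        have a6 : |y 6| ≤ M := hb 6
        calc |4 * y 0 * y 1 + y 6 ^ 2| ≤ |4 * y 0 * y 1| + |y 6 ^ 2| := abs_add_le _ _
          _ = 4 * (|y 0| * |y 1|) + |y 6| ^ 2 := by
            simp only [abs_mul, abs_pow]; norm_num; ring
          _ ≤ 4 * (M * M) + M ^ 2 := by gcongr
          _ = 5 * M ^ 2 := by ring
      have hin : |(4 * y 0 * y 1 + y 6 ^ 2) * (z + y 9) + l9 y| ≤ 41 * c ^ 2 * M ^ 3 := by
        calc _ ≤ |(4 * y 0 * y 1 + y 6 ^ 2) * (z + y 9)| + |l9 y| := abs_add_le _ _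
          _ ≤ (5 * M ^ 2) * (3 * c ^ 2 * M) + 26 * M ^ 3 := by
            rw [abs_mul]; gcongr
          _ ≤ 41 * c ^ 2 * M ^ 3 := by
            have k1 : 1 * M ^ 3 ≤ c ^ 2 * M ^ 3 :=
              mul_le_mul_of_nonneg_right hc2 (pow_nonneg hM0.le 3)
            have k2 : (5 * M ^ 2) * (3 * c ^ 2 * M) + 26 * M ^ 3
              = 15 * (c ^ 2 * M ^ 3) + 26 * (1 * M ^ 3) := by ring
            have k3 : 41 * c ^ 2 * M ^ 3 = 15 * (c ^ 2 * M ^ 3) + 26 * (c ^ 2 * M ^ 3) := by ring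
            rw [k2, k3]
            linarith only [k1]
      have htot : |DD y + (z - y 9) * ((4 * y 0 * y 1 + y 6 ^ 2) * (z + y 9) + l9 y)| ≤
          42 * c ^ 4 * (ε * M ^ 4) := by
        calc _ ≤ |DD y| + |(z - y 9) * ((4 * y 0 * y 1 + y 6 ^ 2) * (z + y 9) + l9 y)| :=
              abs_add_le _ _
          _ ≤ c * (ε * M ^ 4) + c ^ 2 * (41 * c ^ 2 * M ^ 3) := by
            rw [abs_mul]
            gcongr
          _ ≤ c ^ 4 * (ε * M ^ 4) + 41 * c ^ 4 * (ε * M ^ 4) := by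
            have k1 : c ≤ c ^ 4 := by
              calc c = c ^ 1 := (pow_one c).symm
                _ ≤ c ^ 4 := pow_le_pow_right₀ hc (by norm_num)
            have k2 : M ^ 3 ≤ ε * M ^ 4 := by
              calc M ^ 3 = 1 * M ^ 3 := (one_mul _).symm
                _ ≤ (ε * M) * M ^ 3 := by gcongr
                _ = ε * M ^ 4 := by ring
            have k3 : c ^ 2 * (41 * c ^ 2 * M ^ 3) = 41 * c ^ 4 * M ^ 3 := by ring
            rw [k3]
            gcongr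
          _ = _ := by ring
      rw [hel] at htot
      rw [el, e0, e1, e4, e5, e6, e7, e8] at htot
      convert htot using 2)
  refine main.trans ?_
  have hD1 : |κ * x 0 ^ 2 * (κ * x 1 ^ 2) - (κ * (2 * x 6 ^ 2 - x 0 * x 1)) ^ 2| ^ (-p) ≤
      c ^ 2 * M ^ (-(4 * p)) := by
    have h1 : (M / c) ^ 4 ≤ |κ * x 0 ^ 2 * (κ * x 1 ^ 2) - (κ * (2 * x 6 ^ 2 - x 0 * x 1)) ^ 2| := by
      refine le_trans ?_ hΔ'
      have : (M / c) ^ 4 ≤ x 6 ^ 4 := by
        have h2 : x 6 ^ 4 = |x 6| ^ 4 := by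
          rw [← abs_pow, abs_of_pos hx64]
        rw [h2]
        gcongr
      linarith
    have h2 : |κ * x 0 ^ 2 * (κ * x 1 ^ 2) - (κ * (2 * x 6 ^ 2 - x 0 * x 1)) ^ 2| ^ (-p) ≤
        ((M / c) ^ 4) ^ (-p) :=
      Real.rpow_le_rpow_of_nonpos (by positivity) h1 (by linarith)
    refine h2.trans ?_
    have h3 : ((M / c) ^ 4) ^ (-p) = M ^ (-(4 * p)) * c ^ (4 * p) := by
      rw [← Real.rpow_natCast, ← Real.rpow_mul (by positivity)]
      have : ((4:ℕ):ℝ) * -p = -(4 * p) := by push_cast; ring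
      rw [this, Real.div_rpow hM0.le hc0.le, Real.rpow_neg hc0.le (4 * p)]
      field_simp
    rw [h3]
    have h4 : c ^ (4 * p) ≤ c ^ (2:ℝ) := Real.rpow_le_rpow_of_exponent_le hc (by linarith)
    have h5 : c ^ (2:ℝ) = c ^ 2 := by
      rw [← Real.rpow_natCast]; norm_num
    rw [h5] at h4
    rw [mul_comm]
    gcongr
  have hc4 : 1 ≤ 42 * c ^ 4 := by
    have : 1 ≤ c ^ 4 := one_le_pow₀ hc
    linarith
  have hE1 := E_rpow hp hp2 hM hε0 hc4
  have hpow : M ^ (2 - 4 * p) * (M ^ (8 * p) * M ^ (-(4 * p))) = M ^ 2 := by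
    rw [← Real.rpow_add hM0, ← Real.rpow_add hM0]
    have : 2 - 4 * p + (8 * p + -(4 * p)) = ((2:ℕ):ℝ) := by push_cast; ring
    rw [this, Real.rpow_natCast]
  have hMM : M ≤ ε ^ (2 * p) * M ^ 2 := by
    have h1 := eps_pow hp hp2 hM hε hε1
    calc M = 1 * M := (one_mul M).symm
      _ ≤ (ε ^ (2 * p) * M) * M := mul_le_mul_of_nonneg_right h1 hM0.le
      _ = ε ^ (2 * p) * M ^ 2 := by ring
  have hfin : M ^ (2 - 4 * p) * (42 * c ^ 4 * (ε * M ^ 4)) ^ (2 * p) *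
      |κ * x 0 ^ 2 * (κ * x 1 ^ 2) - (κ * (2 * x 6 ^ 2 - x 0 * x 1)) ^ 2| ^ (-p) ≤
      42 * c ^ 4 * c ^ 2 * (ε ^ (2 * p) * M ^ 2) := by
    calc _ ≤ M ^ (2 - 4 * p) * (42 * c ^ 4 * (ε ^ (2 * p) * M ^ (8 * p))) *
          (c ^ 2 * M ^ (-(4 * p))) := by gcongr
      _ = 42 * c ^ 4 * c ^ 2 * (ε ^ (2 * p) * (M ^ (2 - 4 * p) * (M ^ (8 * p) * M ^ (-(4 * p))))) := by
          ring
      _ = _ := by rw [hpow]
  calc _ ≤ C0 * (ε ^ (2 * p) * M ^ 2 + 42 * c ^ 4 * c ^ 2 * (ε ^ (2 * p) * M ^ 2)) := by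
        gcongr
    _ = _ := by ring

/-- case B -/
theorem caseB {p : ℝ} (hp : 0 < p) (hp2 : p < 1 / 2) {c : ℝ} (hc : 1 ≤ c) :
    ∃ C' : ℝ, 0 ≤ C' ∧ ∀ (M ε : ℝ), 1 ≤ M → 1 / M ≤ ε → ε ≤ 1 →
      ∀ (R : Finset (Fin 10 → ℤ)), (∀ k ∈ R, HB M ε c k) →
      (R.card : ℝ) ≤ C' * (ε ^ (2 * p) * M ^ 9) := by
  classical
  obtain ⟨C1, hC1, hpairs⟩ := pairsB hp hp2 hc
  refine ⟨3 ^ 7 * (C1 * (3 * c ^ 2)), by positivity, ?_⟩
  intro M ε hM hε hε1 R hR
  have hM0 : 0 < M := by linarith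
  have hε0 : 0 < ε := lt_of_lt_of_le (by positivity) hε
  have h1 := card_le_mul_fib R (fun k => (![k 0, k 1, k 4, k 5, k 6, k 7, k 8] : Fin 7 → ℤ))
    (C1 * (ε ^ (2 * p) * M ^ 2) * (3 * c ^ 2)) (by
      intro w hw
      obtain ⟨k0, hk0, rfl⟩ := Finset.mem_image.mp hw
      set R' := R.filter (fun k => (![k 0, k 1, k 4, k 5, k 6, k 7, k 8] : Fin 7 → ℤ) =
        ![k0 0, k0 1, k0 4, k0 5, k0 6, k0 7, k0 8]) with hR'
      have hag : ∀ k ∈ R', ∀ j, j ≠ 9 → j ≠ 2 → j ≠ 3 → k j = k0 j := by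
        intro k hk j h9 h2 h3
        have he := (Finset.mem_filter.mp hk).2
        have a0 := congrFun he 0
        have a1 := congrFun he 1
        have a2 := congrFun he 2
        have a3 := congrFun he 3
        have a4 := congrFun he 4
        have a5 := congrFun he 5
        have a6 := congrFun he 6
        have a0' : k 0 = k0 0 := a0
        have a1' : k 1 = k0 1 := a1
        have a2' : k 4 = k0 4 := a2
        have a3' : k 5 = k0 5 := a3
        have a4' : k 6 = k0 6 := a4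
        have a5' : k 7 = k0 7 := a5
        have a6' : k 8 = k0 8 := a6
        fin_cases j
        · exact a0'
        · exact a1'
        · exact absurd rfl h2
        · exact absurd rfl h3
        · exact a2'
        · exact a3'
        · exact a4'
        · exact a5'
        · exact a6'
        · exact absurd rfl h9
      have hRR' : ∀ k ∈ R', HB M ε c k := fun k hk => hR k (Finset.mem_filter.mp hk).1
      have hp1 := hpairs M ε hM hε hε1 R' k0 hRR' (hR k0 hk0) hag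
      have hf := card_le_mul_fib R' (fun k => (k 2, k 3)) (3 * c ^ 2) (by
        intro v hv
        obtain ⟨k1, hk1, rfl⟩ := Finset.mem_image.mp hv
        apply fibB9 hM hc _ (fun k hk => hRR' k (Finset.mem_filter.mp hk).1) k1
        intro k hk j hj
        have hm := Finset.mem_filter.mp hk
        have hpe := Prod.ext_iff.mp hm.2
        simp only at hpe
        by_cases h2 : j = 2
        · subst h2; exact hpe.1
        · by_cases h3 : j = 3
          · subst h3; exact hpe.2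
          · rw [hag k hm.1 j hj h2 h3, hag k1 hk1 j hj h2 h3])
      refine hf.trans ?_
      exact mul_le_mul_of_nonneg_right hp1 (by positivity))
  have h2 := card_box (n := 7) hM (R.image (fun k => (![k 0, k 1, k 4, k 5, k 6, k 7, k 8] : Fin 7 → ℤ)))
    (by
      intro w hw i
      obtain ⟨k, hk, rfl⟩ := Finset.mem_image.mp hw
      have hb := (hR k hk).1
      fin_cases i
      · exact hb 0
      · exact hb 1
      · exact hb 4
      · exact hb 5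
      · exact hb 6
      · exact hb 7
      · exact hb 8)
  refine h1.trans ?_
  calc _ ≤ (3 * M) ^ 7 * (C1 * (ε ^ (2 * p) * M ^ 2) * (3 * c ^ 2)) := by
        gcongr
    _ = _ := by ring

end Pool.Agent.PP5A
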