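import Mathlib

/-!
# PP5, archimedean count: integer points where a real quadratic polynomial is small
-/

namespace Pool.Agent.PP5A

open Finset Real

theorem card_le_of_diff {A : Finset ℤ} {L : ℝ} (hL : 0 ≤ L)
    (h : ∀ s ∈ A, ∀ s' ∈ A, ((s' : ℝ) - s) ≤ L) : (A.card : ℝ) ≤ L + 1 := by
  rcases A.eq_empty_or_nonempty with h0 | h0
  · subst h0; simp; linarith
  · have hsub : A ⊆ Finset.Icc (A.min' h0) (A.max' h0) := by
      intro a ha
      rw [Finset.mem_Icc]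
      exact ⟨A.min'_le a ha, A.le_max' a ha⟩
    have h1 := Finset.card_le_card hsub
    rw [Int.card_Icc] at h1
    have h2 := h _ (A.min'_mem h0) _ (A.max'_mem h0)
    have h3 : A.min' h0 ≤ A.max' h0 := A.min'_le _ (A.max'_mem h0)
    have h4 : (A.card : ℤ) ≤ A.max' h0 + 1 - A.min' h0 := by
      have : ((A.max' h0 + 1 - A.min' h0).toNat : ℤ) = A.max' h0 + 1 - A.min' h0 :=
        Int.toNat_of_nonneg (by linarith)
      rw [← this]; exact_mod_cast h1
    have h5 : ((A.card : ℤ) : ℝ) ≤ ((A.max' h0 + 1 - A.min' h0 : ℤ) : ℝ) := by exact_mod_cast h4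
    push_cast at h5
    linarith

/-- two points on the same side of the vertex -/
theorem same_side {α b c E d s s' : ℝ} (hd : d = b ^ 2 - 4 * α * c) (hE : 0 ≤ E)
    (hs : |α * s ^ 2 + b * s + c| ≤ E) (hs' : |α * s' ^ 2 + b * s' + c| ≤ E)
    (hsg : 0 ≤ (2 * α * s + b) * (2 * α * s' + b)) (hlt : s ≤ s') :
    (s' - s) * √|d| ≤ 4 * E := by
  set P := 2 * α * s + b with hP
  set P' := 2 * α * s' + b with hP'
  set D := √|d| with hD
  have hD0 : 0 ≤ D := Real.sqrt_nonneg _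
  have hD2 : D ^ 2 = |d| := Real.sq_sqrt (abs_nonneg _)
  set v := α * s ^ 2 + b * s + c with hv
  set v' := α * s' ^ 2 + b * s' + c with hv'
  have hδ : 0 ≤ s' - s := by linarith
  have e1 : (s' - s) * (P + P') = 2 * (v' - v) := by rw [hP, hP', hv, hv']; ring
  have e2 : P ^ 2 = d + 4 * α * v := by rw [hP, hv, hd]; ring
  have e3 : P' - P = 2 * α * (s' - s) := by rw [hP, hP']; ring
  have hvv : |v' - v| ≤ 2 * E := by
    calc |v' - v| ≤ |v'| + |v| := abs_sub _ _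
      _ ≤ 2 * E := by linarith
  have e4 : (s' - s) * |P + P'| ≤ 4 * E := by
    have : |(s' - s) * (P + P')| = 2 * |v' - v| := by rw [e1, abs_mul]; norm_num
    rw [abs_mul, abs_of_nonneg hδ] at this
    linarith
  have hsum : |P + P'| = |P| + |P'| := by
    rcases le_or_gt 0 P with h | h
    · rcases le_or_gt 0 P' with h' | h'
      · rw [abs_of_nonneg h, abs_of_nonneg h', abs_of_nonneg (by linarith)]
      · have : P = 0 := by
          rcases h.lt_or_eq with h1 | h1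
          · exact absurd hsg (not_le.mpr (mul_neg_of_pos_of_neg h1 h'))
          · exact h1.symm
        rw [this]; simp
    · rcases le_or_gt P' 0 with h' | h'
      · rw [abs_of_neg h, abs_of_nonpos h', abs_of_nonpos (by linarith)]; ring
      · exact absurd hsg (not_le.mpr (mul_neg_of_neg_of_pos h h'))
  rcases le_or_gt (8 * |α| * E) |d| with hc | hc
  · -- big discriminant
    have h4 : |4 * α * v| ≤ |d| / 2 := by
      rw [abs_mul, abs_mul]
      have : |(4:ℝ)| = 4 := by norm_num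
      rw [this]
      have : |α| * |v| ≤ |α| * E := mul_le_mul_of_nonneg_left hs (abs_nonneg _)
      linarith
    have hdpos : 0 ≤ d := by
      by_contra hneg
      push Not at hneg
      have h5 : |d| = -d := abs_of_neg hneg
      have h6 := (abs_le.mp h4).2
      have : P ^ 2 ≤ d + -d / 2 := by rw [e2]; rw [h5] at h6; linarith
      linarith [sq_nonneg P]
    have h5 : |d| = d := abs_of_nonneg hdpos
    have h6 := (abs_le.mp h4).1
    have h7 : D ^ 2 / 2 ≤ P ^ 2 := by rw [hD2, h5, e2]; rw [h5] at h6; linarith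
    -- |P| ≥ D/√2 ; then |P + P'| ≥ |P| ... use also P'
    have h4' : |4 * α * v'| ≤ |d| / 2 := by
      rw [abs_mul, abs_mul]
      have : |(4:ℝ)| = 4 := by norm_num
      rw [this]
      have : |α| * |v'| ≤ |α| * E := mul_le_mul_of_nonneg_left hs' (abs_nonneg _)
      linarith
    have e2' : P' ^ 2 = d + 4 * α * v' := by rw [hP', hv', hd]; ring
    have h6' := (abs_le.mp h4').1
    have h7' : D ^ 2 / 2 ≤ P' ^ 2 := by rw [hD2, h5, e2']; rw [h5] at h6'; linarith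
    have h8 : D ≤ |P| + |P'| := by
      have a1 : D / 2 ≤ |P| := by
        apply abs_le_of_sq_le_sq' _ (abs_nonneg _) |>.2
        rw [sq_abs]; linarith [sq_nonneg D]
      have a2 : D / 2 ≤ |P'| := by
        apply abs_le_of_sq_le_sq' _ (abs_nonneg _) |>.2
        rw [sq_abs]; linarith [sq_nonneg D]
      linarith
    calc (s' - s) * D ≤ (s' - s) * |P + P'| := by
          rw [hsum]; exact mul_le_mul_of_nonneg_left h8 hδ
      _ ≤ 4 * E := e4
  · have h1 : 2 * |α| * (s' - s) ≤ |P + P'| := by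
      have : |P' - P| = 2 * |α| * (s' - s) := by
        rw [e3, abs_mul, abs_mul, abs_of_nonneg hδ]; norm_num
      rw [← this, hsum]
      calc |P' - P| ≤ |P'| + |P| := abs_sub _ _
        _ = _ := by ring
    have h2 : (s' - s) * (2 * |α| * (s' - s)) ≤ 4 * E :=
      (mul_le_mul_of_nonneg_left h1 hδ).trans e4
    have h3 : ((s' - s) * D) ^ 2 ≤ (4 * E) ^ 2 := by
      have : ((s' - s) * D) ^ 2 = (s' - s) ^ 2 * |d| := by rw [mul_pow, hD2]
      rw [this]
      calc (s' - s) ^ 2 * |d| ≤ (s' - s) ^ 2 * (8 * |α| * E) :=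
            mul_le_mul_of_nonneg_left hc.le (sq_nonneg _)
        _ = (s' - s) * (2 * |α| * (s' - s)) * (4 * E) := by ring
        _ ≤ 4 * E * (4 * E) := mul_le_mul_of_nonneg_right h2 (by linarith)
        _ = (4 * E) ^ 2 := by ring
    exact (abs_le_of_sq_le_sq' h3 (by linarith)).2

/-- at most `2 + 8 E / √|d|` integers with `|α s² + b s + c| ≤ E` -/
theorem quad_count {α b c E d : ℝ} (hd : d = b ^ 2 - 4 * α * c) (hd0 : d ≠ 0) (hE : 0 ≤ E)
    (A : Finset ℤ) (hA : ∀ s ∈ A, |α * (s : ℝ) ^ 2 + b * s + c| ≤ E) :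
    (A.card : ℝ) ≤ 2 + 8 * E / √|d| := by
  classical
  have hD : 0 < √|d| := Real.sqrt_pos.mpr (abs_pos.mpr hd0)
  have hL : 0 ≤ 4 * E / √|d| := by positivity
  have key : ∀ s ∈ A, ∀ s' ∈ A, 0 ≤ (2 * α * (s:ℝ) + b) * (2 * α * s' + b) →
      ((s' : ℝ) - s) ≤ 4 * E / √|d| := by
    intro s hs s' hs' hsg
    rcases le_total (s:ℝ) s' with h | h
    · rw [le_div_iff₀ hD]
      exact same_side hd hE (hA s hs) (hA s' hs') hsg h
    · linarith
  have h1 : ((A.filter (fun s : ℤ => 0 ≤ 2 * α * (s:ℝ) + b)).card : ℝ) ≤ 4 * E / √|d| + 1 := by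
    apply card_le_of_diff hL
    intro s hs s' hs'
    rw [Finset.mem_filter] at hs hs'
    exact key s hs.1 s' hs'.1 (mul_nonneg hs.2 hs'.2)
  have h2 : ((A.filter (fun s : ℤ => ¬ 0 ≤ 2 * α * (s:ℝ) + b)).card : ℝ) ≤ 4 * E / √|d| + 1 := by
    apply card_le_of_diff hL
    intro s hs s' hs'
    rw [Finset.mem_filter] at hs hs'
    exact key s hs.1 s' hs'.1 (mul_nonneg_of_nonpos_of_nonpos (not_le.mp hs.2).le (not_le.mp hs'.2).le)
  have h3 := Finset.card_filter_add_card_filter_not (s := A) (fun s : ℤ => 0 ≤ 2 * α * (s:ℝ) + b)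
  have h4 : (A.card : ℝ) = ((A.filter (fun s : ℤ => 0 ≤ 2 * α * (s:ℝ) + b)).card : ℝ) +
      ((A.filter (fun s : ℤ => ¬ 0 ≤ 2 * α * (s:ℝ) + b)).card : ℝ) := by
    rw [← h3]; push_cast; rfl
  rw [h4]
  have : 2 + 8 * E / √|d| = (4 * E / √|d| + 1) + (4 * E / √|d| + 1) := by ring
  rw [this]
  linarith

/-- interpolation -/
theorem interp {N x y θ : ℝ} (hx : 0 ≤ x) (hy : 0 ≤ y) (h0 : 0 ≤ θ) (h1 : θ ≤ 1)
    (hN1 : N ≤ x) (hN2 : N ≤ 2 + y) : N ≤ 2 + x ^ (1 - θ) * y ^ θ := by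
  have h2 : min x y ≤ x ^ (1 - θ) * y ^ θ := by
    rcases le_total x y with h | h
    · rw [min_eq_left h]
      calc x = x ^ (1 - θ) * x ^ θ := by
            rw [← Real.rpow_add_of_nonneg hx (by linarith) h0]; simp
        _ ≤ _ := mul_le_mul_of_nonneg_left (Real.rpow_le_rpow hx h h0) (Real.rpow_nonneg hx _)
    · rw [min_eq_right h]
      calc y = y ^ (1 - θ) * y ^ θ := by
            rw [← Real.rpow_add_of_nonneg hy (by linarith) h0]; simp
        _ ≤ _ := mul_le_mul_of_nonneg_right (Real.rpow_le_rpow hy h (by linarith))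
            (Real.rpow_nonneg hy _)
  have h3 : N - 2 ≤ min x y := le_min (by linarith) (by linarith)
  linarith

/-- `n ^ (-q)` telescopes -/
theorem rpow_tel {q : ℝ} (h0 : 0 < q) (h1 : q < 1) (n : ℕ) :
    ((n + 1 : ℕ) : ℝ) ^ (-q) ≤
      (((n + 1 : ℕ) : ℝ) ^ (1 - q) - (n : ℝ) ^ (1 - q)) / (1 - q) := by
  have hn : (0:ℝ) < ((n + 1 : ℕ) : ℝ) := by positivity
  set m : ℝ := ((n + 1 : ℕ) : ℝ) with hm
  have hm1 : 1 ≤ m := by rw [hm]; push_cast; linarith [Nat.cast_nonneg (α := ℝ) n]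
  have hnm : (n : ℝ) = m * (1 + -(1 / m)) := by rw [hm]; push_cast; field_simp; ring
  have hb : (1 + -(1 / m)) ^ (1 - q) ≤ 1 + (1 - q) * (-(1 / m)) := by
    apply rpow_one_add_le_one_add_mul_self
    · have : 1 / m ≤ 1 := by rw [div_le_one hn]; exact hm1
      linarith
    · linarith
    · linarith
  have h2 : (n : ℝ) ^ (1 - q) ≤ m ^ (1 - q) * (1 + (1 - q) * (-(1 / m))) := by
    rw [hnm, Real.mul_rpow hn.le (by
      have : 1 / m ≤ 1 := by rw [div_le_one hn]; exact hm1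
      linarith)]
    exact mul_le_mul_of_nonneg_left hb (Real.rpow_nonneg hn.le _)
  have h3 : m ^ (1 - q) * (1 / m) = m ^ (-q) := by
    rw [Real.rpow_sub hn, Real.rpow_one, Real.rpow_neg hn.le]; field_simp
  rw [le_div_iff₀ (by linarith)]
  nlinarith

theorem sum_rpow_le {q : ℝ} (h0 : 0 < q) (h1 : q < 1) (A : Finset ℕ) (hA : ∀ n ∈ A, 1 ≤ n) :
    ∑ n ∈ A, (n : ℝ) ^ (-q) ≤ (A.card : ℝ) ^ (1 - q) / (1 - q) := by
  induction A using Finset.induction_on_max with
  | empty =>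
    have h4 : 0 < 1 - q := by linarith
    simp only [Finset.sum_empty]; positivity
  | insert a s ha ih =>
    have hna : a ∉ s := fun h => lt_irrefl _ (ha a h)
    rw [Finset.sum_insert hna, Finset.card_insert_of_notMem hna]
    have ih' := ih (fun n hn => hA n (Finset.mem_insert_of_mem hn))
    have hcard : s.card + 1 ≤ a := by
      have : s ⊆ Finset.Ico 1 a := by
        intro x hx
        rw [Finset.mem_Ico]
        exact ⟨hA x (Finset.mem_insert_of_mem hx), ha x hx⟩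
      have h2 := Finset.card_le_card this
      rw [Nat.card_Ico] at h2
      have := hA a (Finset.mem_insert_self _ _)
      omega
    have h2 : (a : ℝ) ^ (-q) ≤ ((s.card + 1 : ℕ) : ℝ) ^ (-q) := by
      apply Real.rpow_le_rpow_of_nonpos (by positivity) (by exact_mod_cast hcard) (by linarith)
    have h3 := rpow_tel h0 h1 s.card
    have h4 : 0 < 1 - q := by linarith
    have h5 : (((s.card + 1 : ℕ) : ℝ) ^ (1 - q) - (s.card : ℝ) ^ (1 - q)) / (1 - q) +
        (s.card : ℝ) ^ (1 - q) / (1 - q) = ((s.card + 1 : ℕ) : ℝ) ^ (1 - q) / (1 - q) := by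
      rw [← add_div]; congr 1; ring
    linarith

/-- integers at distance at least one from `ρ` -/
theorem sum_dist_le {q : ℝ} (h0 : 0 < q) (h1 : q < 1) (ρ : ℝ) {M : ℝ} (hM : 1 ≤ M) (A : Finset ℤ)
    (hA : ∀ t ∈ A, |(t:ℝ)| ≤ M) (hA1 : ∀ t ∈ A, 1 ≤ |(t:ℝ) - ρ|) :
    ∑ t ∈ A, |(t:ℝ) - ρ| ^ (-q) ≤ 6 / (1 - q) * M ^ (1 - q) := by
  classical
  have hq : 0 < 1 - q := by linarith
  have hcard : ∀ B : Finset ℤ, B ⊆ A → (B.card : ℝ) ≤ 3 * M := by
    intro B hB
    have := card_le_of_diff (A := B) (L := 2 * M) (by linarith) (by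
      intro s hs s' hs'
      have a1 := abs_le.mp (hA s (hB hs))
      have a2 := abs_le.mp (hA s' (hB hs'))
      linarith)
    linarith
  have side : ∀ (B : Finset ℤ), B ⊆ A → (Set.InjOn (fun t : ℤ => ⌊|(t:ℝ) - ρ|⌋₊) B) →
      ∑ t ∈ B, |(t:ℝ) - ρ| ^ (-q) ≤ 3 / (1 - q) * M ^ (1 - q) := by
    intro B hB hinj
    have e1 : ∀ t ∈ B, |(t:ℝ) - ρ| ^ (-q) ≤ ((⌊|(t:ℝ) - ρ|⌋₊ : ℕ) : ℝ) ^ (-q) := by
      intro t ht
      have h2 := hA1 t (hB ht)
      apply Real.rpow_le_rpow_of_nonpos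
      · have : 1 ≤ ⌊|(t:ℝ) - ρ|⌋₊ := Nat.le_floor (by simpa using h2)
        exact_mod_cast this
      · exact Nat.floor_le (abs_nonneg _)
      · linarith
    calc ∑ t ∈ B, |(t:ℝ) - ρ| ^ (-q) ≤ ∑ t ∈ B, ((⌊|(t:ℝ) - ρ|⌋₊ : ℕ) : ℝ) ^ (-q) :=
          Finset.sum_le_sum e1
      _ = ∑ n ∈ B.image (fun t : ℤ => ⌊|(t:ℝ) - ρ|⌋₊), (n : ℝ) ^ (-q) := by
          rw [Finset.sum_image hinj]
      _ ≤ ((B.image (fun t : ℤ => ⌊|(t:ℝ) - ρ|⌋₊)).card : ℝ) ^ (1 - q) / (1 - q) := by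
          apply sum_rpow_le h0 h1
          intro n hn
          rw [Finset.mem_image] at hn
          obtain ⟨t, ht, rfl⟩ := hn
          exact Nat.le_floor (by simpa using hA1 t (hB ht))
      _ = (B.card : ℝ) ^ (1 - q) / (1 - q) := by rw [Finset.card_image_of_injOn hinj]
      _ ≤ (3 * M) ^ (1 - q) / (1 - q) := by
          gcongr
          exact hcard B hB
      _ = 3 ^ (1 - q) * M ^ (1 - q) / (1 - q) := by
          rw [Real.mul_rpow (by norm_num) (by linarith)]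
      _ ≤ 3 * M ^ (1 - q) / (1 - q) := by
          have : (3:ℝ) ^ (1 - q) ≤ 3 ^ (1:ℝ) :=
            Real.rpow_le_rpow_of_exponent_le (by norm_num) (by linarith)
          rw [Real.rpow_one] at this
          gcongr
      _ = 3 / (1 - q) * M ^ (1 - q) := by ring
  have hsplit : ∑ t ∈ A, |(t:ℝ) - ρ| ^ (-q) =
      ∑ t ∈ A.filter (fun t : ℤ => ρ ≤ (t:ℝ)), |(t:ℝ) - ρ| ^ (-q) +
      ∑ t ∈ A.filter (fun t : ℤ => ¬ ρ ≤ (t:ℝ)), |(t:ℝ) - ρ| ^ (-q) :=
    (Finset.sum_filter_add_sum_filter_not _ _ _).symm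
  have hi : ∀ (s t : ℤ) (x y : ℝ), x = (s:ℝ) - ρ ∨ x = ρ - s → (y = (t:ℝ) - ρ ∧ x = (s:ℝ) - ρ ∨
      y = ρ - t ∧ x = ρ - s) → 0 ≤ x → 0 ≤ y → ⌊x⌋₊ = ⌊y⌋₊ → s = t := by
    intro s t x y _ hxy hx hy hf
    have a1 := Nat.floor_le hx
    have a2 := Nat.lt_floor_add_one x
    have a3 := Nat.floor_le hy
    have a4 := Nat.lt_floor_add_one y
    rw [hf] at a1 a2
    have h5 : |x - y| < 1 := by rw [abs_lt]; constructor <;> linarith
    have h6 : |((s - t : ℤ) : ℝ)| < 1 := by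
      push_cast
      rcases hxy with ⟨h7, h8⟩ | ⟨h7, h8⟩
      · rw [h7, h8] at h5
        have : (s:ℝ) - t = (s:ℝ) - ρ - (t - ρ) := by ring
        rw [this]; exact h5
      · rw [h7, h8] at h5
        have : (s:ℝ) - t = -(ρ - s - (ρ - t)) := by ring
        rw [this, abs_neg]; exact h5
    have h7 : |(s - t : ℤ)| < 1 := by exact_mod_cast h6
    have := Int.abs_lt_one_iff.mp h7
    linarith
  rw [hsplit]
  have s1 := side (A.filter (fun t : ℤ => ρ ≤ (t:ℝ))) (Finset.filter_subset _ _) (by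
    intro s hs t ht hf
    rw [Finset.mem_coe, Finset.mem_filter] at hs ht
    have h3 : (0:ℝ) ≤ (s:ℝ) - ρ := by linarith [hs.2]
    have h4 : (0:ℝ) ≤ (t:ℝ) - ρ := by linarith [ht.2]
    simp only at hf
    rw [abs_of_nonneg h3, abs_of_nonneg h4] at hf
    exact hi s t _ _ (Or.inl rfl) (Or.inl ⟨rfl, rfl⟩) h3 h4 hf)
  have s2 := side (A.filter (fun t : ℤ => ¬ ρ ≤ (t:ℝ))) (Finset.filter_subset _ _) (by
    intro s hs t ht hf
    rw [Finset.mem_coe, Finset.mem_filter] at hs ht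
    have h3 : (0:ℝ) ≤ ρ - (s:ℝ) := by linarith [not_le.mp hs.2]
    have h4 : (0:ℝ) ≤ ρ - (t:ℝ) := by linarith [not_le.mp ht.2]
    simp only at hf
    have e3 : |(s:ℝ) - ρ| = ρ - s := by rw [abs_sub_comm, abs_of_nonneg h3]
    have e4 : |(t:ℝ) - ρ| = ρ - t := by rw [abs_sub_comm, abs_of_nonneg h4]
    rw [e3, e4] at hf
    exact hi s t _ _ (Or.inr rfl) (Or.inr ⟨rfl, rfl⟩) h3 h4 hf)
  have : 6 / (1 - q) * M ^ (1 - q) = 3 / (1 - q) * M ^ (1 - q) + 3 / (1 - q) * M ^ (1 - q) := by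
    ring
  linarith

/-- a real quadratic polynomial is bounded below by a product of two real linear factors -/
theorem quad_factor (a b c : ℝ) (ha : a ≠ 0) :
    ∃ r1 r2 : ℝ, ∀ t : ℝ, |a| * (|t - r1| * |t - r2|) ≤ |a * t ^ 2 + b * t + c| := by
  rcases le_or_gt 0 (b ^ 2 - 4 * a * c) with h | h
  · refine ⟨(-b + √(b ^ 2 - 4 * a * c)) / (2 * a), (-b - √(b ^ 2 - 4 * a * c)) / (2 * a), ?_⟩
    intro t
    have h2 := Real.sq_sqrt h
    generalize √(b ^ 2 - 4 * a * c) = w at h2 ⊢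
    have : a * t ^ 2 + b * t + c = a * ((t - (-b + w) / (2 * a)) *
        (t - (-b - w) / (2 * a))) := by
      field_simp
      linear_combination h2
    rw [this, abs_mul, abs_mul]
  · refine ⟨-b / (2 * a), -b / (2 * a), ?_⟩
    intro t
    rw [← abs_mul, ← abs_mul]
    have e1 : a * t ^ 2 + b * t + c = a * ((t - -b / (2 * a)) * (t - -b / (2 * a))) +
        (4 * a * c - b ^ 2) / (4 * a) := by field_simp; ring
    rw [e1]
    rcases lt_or_gt_of_ne ha with h3 | h3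
    · have h4 : (4 * a * c - b ^ 2) / (4 * a) ≤ 0 :=
        div_nonpos_of_nonneg_of_nonpos (by linarith) (by linarith)
      have h5 : a * ((t - -b / (2 * a)) * (t - -b / (2 * a))) ≤ 0 :=
        mul_nonpos_of_nonpos_of_nonneg h3.le (mul_self_nonneg _)
      rw [abs_of_nonpos h5, abs_of_nonpos (by linarith)]
      linarith
    · have h4 : 0 ≤ (4 * a * c - b ^ 2) / (4 * a) := div_nonneg (by linarith) (by linarith)
      have h5 : 0 ≤ a * ((t - -b / (2 * a)) * (t - -b / (2 * a))) :=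
        mul_nonneg h3.le (mul_self_nonneg _)
      rw [abs_of_nonneg h5, abs_of_nonneg (by linarith)]
      linarith

end Pool.Agent.PP5A
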