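import Pool.Agent.PP5A.Quad

/-!
# PP5, archimedean count: quadratic polynomials in two variables
-/

namespace Pool.Agent.PP5A

open Finset Real

/-- integers of a subset of `[-M, M]` -/
theorem card_le_M {M : ℝ} (hM : 1 ≤ M) (A : Finset ℤ) (hA : ∀ t ∈ A, |(t:ℝ)| ≤ M) :
    (A.card : ℝ) ≤ 3 * M := by
  have := card_le_of_diff (A := A) (L := 2 * M) (by linarith) (by
    intro s hs s' hs'
    have a1 := abs_le.mp (hA s hs)
    have a2 := abs_le.mp (hA s' hs')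
    linarith)
  linarith

/-- integers near `ρ` -/
theorem card_near (ρ : ℝ) (A : Finset ℤ) (hA : ∀ t ∈ A, |(t:ℝ) - ρ| < 1) :
    (A.card : ℝ) ≤ 3 := by
  have := card_le_of_diff (A := A) (L := 2) (by norm_num) (by
    intro s hs s' hs'
    have a1 := abs_lt.mp (hA s hs)
    have a2 := abs_lt.mp (hA s' hs')
    linarith)
  linarith

/-- one-variable summation -/
theorem sum_one {q : ℝ} (h0 : 0 < q) (h1 : q < 1) (ρ : ℝ) {M : ℝ} (hM : 1 ≤ M) (A : Finset ℤ)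
    (hA : ∀ t ∈ A, |(t:ℝ)| ≤ M) (g : ℤ → ℝ) {G a b : ℝ} (hG : 0 ≤ G) (ha : 0 ≤ a) (hb : 0 ≤ b)
    (hg : ∀ t ∈ A, |(t:ℝ) - ρ| < 1 → g t ≤ G)
    (hg' : ∀ t ∈ A, 1 ≤ |(t:ℝ) - ρ| → g t ≤ a + b * |(t:ℝ) - ρ| ^ (-q)) :
    ∑ t ∈ A, g t ≤ 3 * G + 3 * M * a + b * (6 / (1 - q) * M ^ (1 - q)) := by
  classical
  have hsplit : ∑ t ∈ A, g t =
      ∑ t ∈ A.filter (fun t : ℤ => |(t:ℝ) - ρ| < 1), g t +
      ∑ t ∈ A.filter (fun t : ℤ => ¬ |(t:ℝ) - ρ| < 1), g t :=
    (Finset.sum_filter_add_sum_filter_not _ _ _).symm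
  have e1 : ∑ t ∈ A.filter (fun t : ℤ => |(t:ℝ) - ρ| < 1), g t ≤ 3 * G := by
    calc ∑ t ∈ A.filter (fun t : ℤ => |(t:ℝ) - ρ| < 1), g t
        ≤ ∑ t ∈ A.filter (fun t : ℤ => |(t:ℝ) - ρ| < 1), G := by
          apply Finset.sum_le_sum
          intro t ht
          rw [Finset.mem_filter] at ht
          exact hg t ht.1 ht.2
      _ = ((A.filter (fun t : ℤ => |(t:ℝ) - ρ| < 1)).card : ℝ) * G := by
          rw [Finset.sum_const, nsmul_eq_mul]
      _ ≤ 3 * G := by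
          apply mul_le_mul_of_nonneg_right _ hG
          apply card_near ρ
          intro t ht
          exact (Finset.mem_filter.mp ht).2
  have e2 : ∑ t ∈ A.filter (fun t : ℤ => ¬ |(t:ℝ) - ρ| < 1), g t ≤
      3 * M * a + b * (6 / (1 - q) * M ^ (1 - q)) := by
    calc ∑ t ∈ A.filter (fun t : ℤ => ¬ |(t:ℝ) - ρ| < 1), g t
        ≤ ∑ t ∈ A.filter (fun t : ℤ => ¬ |(t:ℝ) - ρ| < 1), (a + b * |(t:ℝ) - ρ| ^ (-q)) := by
          apply Finset.sum_le_sum
          intro t ht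
          rw [Finset.mem_filter] at ht
          exact hg' t ht.1 (not_lt.mp ht.2)
      _ = ((A.filter (fun t : ℤ => ¬ |(t:ℝ) - ρ| < 1)).card : ℝ) * a +
          b * ∑ t ∈ A.filter (fun t : ℤ => ¬ |(t:ℝ) - ρ| < 1), |(t:ℝ) - ρ| ^ (-q) := by
          rw [Finset.sum_add_distrib, Finset.sum_const, nsmul_eq_mul, Finset.mul_sum]
      _ ≤ 3 * M * a + b * (6 / (1 - q) * M ^ (1 - q)) := by
          apply add_le_add
          · apply mul_le_mul_of_nonneg_right _ ha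
            apply card_le_M hM
            intro t ht
            exact hA t (Finset.mem_filter.mp ht).1
          · apply mul_le_mul_of_nonneg_left _ hb
            apply sum_dist_le h0 h1 ρ hM
            · intro t ht
              exact hA t (Finset.mem_filter.mp ht).1
            · intro t ht
              exact not_lt.mp (Finset.mem_filter.mp ht).2
  rw [hsplit]
  linarith

/-- integer points where a real quadratic polynomial in two variables is small -/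
theorem quad_two {p : ℝ} (hp : 0 < p) (hp2 : p < 1 / 2) :
    ∃ C : ℝ, 0 ≤ C ∧ ∀ (α β γ b1 b2 c0 E M : ℝ), α * γ - β ^ 2 ≠ 0 → 0 ≤ E → 1 ≤ M →
      ∀ S : Finset (ℤ × ℤ), (∀ x ∈ S, |(x.1 : ℝ)| ≤ M ∧ |(x.2 : ℝ)| ≤ M ∧
        |α * (x.1 : ℝ) ^ 2 + 2 * β * x.1 * x.2 + γ * (x.2 : ℝ) ^ 2 + b1 * x.1 + b2 * x.2 + c0| ≤ E) →
      (S.card : ℝ) ≤ C * (M + M ^ (2 - 4 * p) * E ^ (2 * p) * |α * γ - β ^ 2| ^ (-p)) := by
  classical
  have hq : 0 < 1 - 2 * p := by linarith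
  refine ⟨144 / (1 - 2 * p) + 24, by positivity, ?_⟩
  intro α β γ b1 b2 c0 E M hΔ hE hM S hS
  set Δ := α * γ - β ^ 2 with hΔd
  have hM0 : 0 < M := by linarith
  have hΔ0 : 0 < |Δ| := abs_pos.mpr hΔ
  obtain ⟨r1, r2, hr⟩ := quad_factor (-4 * Δ) (4 * β * b1 - 4 * α * b2) (b1 ^ 2 - 4 * α * c0)
    (by intro h; apply hΔ; linarith)
  set T := S.image Prod.snd with hT
  have hcard : (S.card : ℝ) = ∑ t ∈ T, ((S.filter (fun x => x.2 = t)).card : ℝ) := by
    rw [Finset.card_eq_sum_card_fiberwise (f := Prod.snd) (t := T)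
      (fun x hx => Finset.mem_image_of_mem _ hx)]
    push_cast; rfl
  have hTM : ∀ t ∈ T, |(t:ℝ)| ≤ M := by
    intro t ht
    obtain ⟨x, hx, rfl⟩ := Finset.mem_image.mp ht
    exact (hS x hx).2.1
  -- fibre
  have hfib : ∀ t : ℤ, ((S.filter (fun x => x.2 = t)).card : ℝ) =
      (((S.filter (fun x => x.2 = t)).image Prod.fst).card : ℝ) := by
    intro t
    rw [Finset.card_image_of_injOn]
    intro x hx y hy hxy
    have h1 := (Finset.mem_filter.mp (Finset.mem_coe.mp hx)).2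
    have h2 := (Finset.mem_filter.mp (Finset.mem_coe.mp hy)).2
    exact Prod.ext hxy (h1.trans h2.symm)
  have htriv : ∀ t : ℤ, ((S.filter (fun x => x.2 = t)).card : ℝ) ≤ 3 * M := by
    intro t
    rw [hfib]
    apply card_le_M hM
    intro s hs
    obtain ⟨x, hx, rfl⟩ := Finset.mem_image.mp hs
    exact (hS x (Finset.mem_filter.mp hx).1).1
  set b := (3 * M) ^ (1 - 2 * p) * ((4 * E) ^ (2 * p) * |Δ| ^ (-p)) with hbdef
  have hb0 : 0 ≤ b := by positivity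
  have hgood : ∀ t : ℤ, 1 ≤ |(t:ℝ) - r1| → 1 ≤ |(t:ℝ) - r2| →
      ((S.filter (fun x => x.2 = t)).card : ℝ) ≤
        2 + b * (|(t:ℝ) - r1| ^ (-(2 * p)) + |(t:ℝ) - r2| ^ (-(2 * p))) := by
    intro t h1 h2
    set u := |(t:ℝ) - r1| with hu
    set v := |(t:ℝ) - r2| with hv
    have hu0 : 0 < u := by linarith
    have hv0 : 0 < v := by linarith
    have hr' := hr t
    set d := -4 * Δ * (t:ℝ) ^ 2 + (4 * β * b1 - 4 * α * b2) * t + (b1 ^ 2 - 4 * α * c0) with hd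
    have e4 : |-4 * Δ| = 4 * |Δ| := by rw [abs_mul]; norm_num
    rw [e4] at hr'
    have hdpos : 0 < |d| := lt_of_lt_of_le (by positivity) hr'
    have hd0 : d ≠ 0 := abs_pos.mp hdpos
    have hdd : d = (2 * β * t + b1) ^ 2 - 4 * α * (γ * (t:ℝ) ^ 2 + b2 * t + c0) := by
      rw [hd, hΔd]; ring
    have hc := quad_count hdd hd0 hE ((S.filter (fun x => x.2 = t)).image Prod.fst) (by
      intro s hs
      obtain ⟨x, hx, rfl⟩ := Finset.mem_image.mp hs
      rw [Finset.mem_filter] at hx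
      have h3 := (hS x hx.1).2.2
      rw [hx.2] at h3
      convert h3 using 2
      ring)
    rw [← hfib] at hc
    have hsq : 2 * (√|Δ| * √(u * v)) ≤ √|d| := by
      have h4 : 2 * (√|Δ| * √(u * v)) = √(4 * |Δ| * (u * v)) := by
        rw [Real.sqrt_mul (by positivity : (0:ℝ) ≤ 4 * |Δ|) (u * v),
          Real.sqrt_mul (by norm_num : (0:ℝ) ≤ 4) |Δ|]
        have : √(4:ℝ) = 2 := by
          rw [show (4:ℝ) = 2 ^ 2 by norm_num]; exact Real.sqrt_sq (by norm_num)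
        rw [this]; ring
      rw [h4]
      exact Real.sqrt_le_sqrt hr'
    have hpos : 0 < 2 * (√|Δ| * √(u * v)) := by
      have := Real.sqrt_pos.mpr hΔ0
      have := Real.sqrt_pos.mpr (mul_pos hu0 hv0)
      positivity
    have hy : ((S.filter (fun x => x.2 = t)).card : ℝ) ≤ 2 + 4 * E / (√|Δ| * √(u * v)) := by
      refine hc.trans ?_
      have : 4 * E / (√|Δ| * √(u * v)) = 8 * E / (2 * (√|Δ| * √(u * v))) := by
        rw [div_eq_div_iff (by positivity) (by positivity)]; ring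
      rw [this]
      gcongr
    have hi := interp (θ := 2 * p) (x := 3 * M) (y := 4 * E / (√|Δ| * √(u * v))) (by positivity)
      (by positivity) (by linarith) (by linarith) (htriv t) hy
    refine hi.trans ?_
    have e5 : (4 * E / (√|Δ| * √(u * v))) ^ (2 * p) =
        (4 * E) ^ (2 * p) * |Δ| ^ (-p) * (u * v) ^ (-p) := by
      have hW : (√|Δ| * √(u * v)) ^ (2 * p) = |Δ| ^ p * (u * v) ^ p := by
        rw [Real.mul_rpow (Real.sqrt_nonneg _) (Real.sqrt_nonneg _),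
          Real.sqrt_eq_rpow, Real.sqrt_eq_rpow, ← Real.rpow_mul (by positivity),
          ← Real.rpow_mul (by positivity)]
        have : (1 / 2 : ℝ) * (2 * p) = p := by ring
        rw [this]
      rw [Real.div_rpow (by positivity) (by positivity), hW,
        Real.rpow_neg (by positivity), Real.rpow_neg (by positivity)]
      field_simp
    have e6 : (u * v) ^ (-p) ≤ u ^ (-(2 * p)) + v ^ (-(2 * p)) := by
      rw [Real.mul_rpow hu0.le hv0.le]
      have h7 : u ^ (-(2 * p)) = (u ^ (-p)) ^ 2 := by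
        rw [← Real.rpow_natCast, ← Real.rpow_mul hu0.le]; congr 1; push_cast; ring
      have h8 : v ^ (-(2 * p)) = (v ^ (-p)) ^ 2 := by
        rw [← Real.rpow_natCast, ← Real.rpow_mul hv0.le]; congr 1; push_cast; ring
      rw [h7, h8]
      nlinarith [sq_nonneg (u ^ (-p) - v ^ (-p)), sq_nonneg (u ^ (-p)), sq_nonneg (v ^ (-p))]
    rw [e5, hbdef]
    have e7 : (3 * M) ^ (1 - 2 * p) * ((4 * E) ^ (2 * p) * |Δ| ^ (-p) * (u * v) ^ (-p)) =
        (3 * M) ^ (1 - 2 * p) * ((4 * E) ^ (2 * p) * |Δ| ^ (-p)) * (u * v) ^ (-p) := by ring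
    rw [e7]
    have := mul_le_mul_of_nonneg_left e6 hb0
    rw [hbdef] at this
    linarith
  -- summation: remove the points near r2, then use sum_one for r1 ; symmetric
  have hpt : ∀ t ∈ T, ((S.filter (fun x => x.2 = t)).card : ℝ) ≤
      (if |(t:ℝ) - r1| < 1 then 3 * M else 1 + b * |(t:ℝ) - r1| ^ (-(2 * p))) +
      (if |(t:ℝ) - r2| < 1 then 3 * M else 1 + b * |(t:ℝ) - r2| ^ (-(2 * p))) := by
    intro t ht
    have hn1 : 0 ≤ 1 + b * |(t:ℝ) - r1| ^ (-(2 * p)) := by positivity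
    have hn2 : 0 ≤ 1 + b * |(t:ℝ) - r2| ^ (-(2 * p)) := by positivity
    have h3 := htriv t
    by_cases h1 : |(t:ℝ) - r1| < 1
    · rw [if_pos h1]
      split_ifs <;> linarith
    · rw [if_neg h1]
      by_cases h2 : |(t:ℝ) - r2| < 1
      · rw [if_pos h2]; linarith
      · rw [if_neg h2]
        have := hgood t (not_lt.mp h1) (not_lt.mp h2)
        linarith
  have hs : ∀ r : ℝ, ∑ t ∈ T, (if |(t:ℝ) - r| < 1 then 3 * M else 1 + b * |(t:ℝ) - r| ^ (-(2 * p)))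
      ≤ 3 * (3 * M) + 3 * M * 1 + b * (6 / (1 - 2 * p) * M ^ (1 - 2 * p)) := by
    intro r
    apply sum_one (by linarith : 0 < 2 * p) (by linarith) r hM T hTM _ (by positivity) (by norm_num) hb0
    · intro t _ h; rw [if_pos h]
    · intro t _ h; rw [if_neg (not_lt.mpr h)]
  have h9 : (S.card : ℝ) ≤ 2 * (3 * (3 * M) + 3 * M * 1 + b * (6 / (1 - 2 * p) * M ^ (1 - 2 * p))) := by
    rw [hcard]
    calc _ ≤ ∑ t ∈ T, ((if |(t:ℝ) - r1| < 1 then 3 * M else 1 + b * |(t:ℝ) - r1| ^ (-(2 * p))) +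
      (if |(t:ℝ) - r2| < 1 then 3 * M else 1 + b * |(t:ℝ) - r2| ^ (-(2 * p)))) :=
          Finset.sum_le_sum hpt
      _ ≤ _ := by
          rw [Finset.sum_add_distrib]
          have := hs r1
          have := hs r2
          linarith
  refine h9.trans ?_
  have e8 : b * M ^ (1 - 2 * p) ≤ 12 * (M ^ (2 - 4 * p) * E ^ (2 * p) * |Δ| ^ (-p)) := by
    rw [hbdef, Real.mul_rpow (by norm_num) hM0.le, Real.mul_rpow (by norm_num) hE]
    have h3 : (3:ℝ) ^ (1 - 2 * p) ≤ 3 := by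
      calc (3:ℝ) ^ (1 - 2 * p) ≤ 3 ^ (1:ℝ) :=
            Real.rpow_le_rpow_of_exponent_le (by norm_num) (by linarith)
        _ = 3 := Real.rpow_one _
    have h4 : (4:ℝ) ^ (2 * p) ≤ 4 := by
      calc (4:ℝ) ^ (2 * p) ≤ 4 ^ (1:ℝ) :=
            Real.rpow_le_rpow_of_exponent_le (by norm_num) (by linarith)
        _ = 4 := Real.rpow_one _
    have h5 : M ^ (2 - 4 * p) = M ^ (1 - 2 * p) * M ^ (1 - 2 * p) := by
      rw [← Real.rpow_add hM0]; congr 1; ring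
    rw [h5]
    have h6 : (3:ℝ) ^ (1 - 2 * p) * 4 ^ (2 * p) ≤ 3 * 4 :=
      mul_le_mul h3 h4 (by positivity) (by norm_num)
    have h7 : 0 ≤ M ^ (1 - 2 * p) * M ^ (1 - 2 * p) * E ^ (2 * p) * |Δ| ^ (-p) := by positivity
    calc _ = ((3:ℝ) ^ (1 - 2 * p) * 4 ^ (2 * p)) *
          (M ^ (1 - 2 * p) * M ^ (1 - 2 * p) * E ^ (2 * p) * |Δ| ^ (-p)) := by ring
      _ ≤ (3 * 4) * (M ^ (1 - 2 * p) * M ^ (1 - 2 * p) * E ^ (2 * p) * |Δ| ^ (-p)) :=
          mul_le_mul_of_nonneg_right h6 h7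
      _ = _ := by ring
  have e9 : 2 * (3 * (3 * M) + 3 * M * 1 + b * (6 / (1 - 2 * p) * M ^ (1 - 2 * p))) =
      24 * M + 12 / (1 - 2 * p) * (b * M ^ (1 - 2 * p)) := by ring
  rw [e9]
  have h10 : 0 ≤ M ^ (2 - 4 * p) * E ^ (2 * p) * |Δ| ^ (-p) := by positivity
  have h11 : 12 / (1 - 2 * p) * (b * M ^ (1 - 2 * p)) ≤
      12 / (1 - 2 * p) * (12 * (M ^ (2 - 4 * p) * E ^ (2 * p) * |Δ| ^ (-p))) :=
    mul_le_mul_of_nonneg_left e8 (by positivity)
  have h12 : 0 ≤ 144 / (1 - 2 * p) := by positivity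
  calc _ ≤ 24 * M + 12 / (1 - 2 * p) * (12 * (M ^ (2 - 4 * p) * E ^ (2 * p) * |Δ| ^ (-p))) := by
        linarith
    _ = 24 * M + 144 / (1 - 2 * p) * (M ^ (2 - 4 * p) * E ^ (2 * p) * |Δ| ^ (-p)) := by ring
    _ ≤ _ := by nlinarith [mul_nonneg h12 hM0.le]

end Pool.Agent.PP5A
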